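import Mathlib

/-!
# The Alexander module of a group

`AM G` is the target of the universal crossed homomorphism from `G` to a module over the group ring
of the abelianization.
-/

set_option autoImplicit false

namespace Pool.Agent.R684.PS

/-- the rational group ring of the abelianization -/
abbrev RR (G : Type) [Group G] := MonoidAlgebra ℚ (Abelianization G)

/-- the map of `G` to the group ring -/
noncomputable def e {G : Type} [Group G] : G →* RR G :=
  (MonoidAlgebra.of ℚ (Abelianization G)).comp Abelianization.of

/-- the relations of the Alexander module -/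
noncomputable def relS (G : Type) [Group G] : Submodule (RR G) (G →₀ RR G) :=
  Submodule.span _ (Set.range fun p : G × G =>
    Finsupp.single (p.1 * p.2) 1 - Finsupp.single p.1 1 - e p.1 • Finsupp.single p.2 1)

/-- the Alexander module -/
abbrev AM (G : Type) [Group G] := (G →₀ RR G) ⧸ relS G

variable {G : Type} [Group G]

/-- the universal crossed homomorphism -/
noncomputable def d (g : G) : AM G := Submodule.Quotient.mk (Finsupp.single g 1)

theorem d_mul (g h : G) : d (g * h) = d g + e g • d h := by
  have h1 : (Finsupp.single (g * h) 1 - Finsupp.single g 1 - e g • Finsupp.single h 1 :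
      G →₀ RR G) ∈ relS G := Submodule.subset_span ⟨(g, h), rfl⟩
  rw [← Submodule.Quotient.mk_eq_zero] at h1
  rw [Submodule.Quotient.mk_sub, Submodule.Quotient.mk_sub, Submodule.Quotient.mk_smul] at h1
  show d (g * h) = _
  have h2 : d (g * h) - d g - e g • d h = 0 := h1
  rw [sub_sub, sub_eq_zero] at h2
  exact h2

theorem d_one : d (1 : G) = 0 := by
  have h := d_mul (1 : G) 1
  rw [mul_one, map_one, one_smul] at h
  exact left_eq_add.mp h

theorem d_inv (g : G) : d g⁻¹ = -(e g⁻¹ • d g) := by
  have h := d_mul g⁻¹ g
  rw [inv_mul_cancel, d_one] at h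
  exact eq_neg_of_add_eq_zero_left h.symm

theorem lift_ex {W : Type} [AddCommGroup W] [Module (RR G) W] (δ : G → W)
    (hδ : ∀ g h, δ (g * h) = δ g + (e g : RR G) • δ h) :
    ∃ F : AM G →ₗ[RR G] W, ∀ g, F (d g) = δ g := by
  refine ⟨(relS G).liftQ (Finsupp.linearCombination (RR G) δ) ?_, fun g => ?_⟩
  · rw [relS, Submodule.span_le]
    rintro _ ⟨p, rfl⟩
    show Finsupp.linearCombination (RR G) δ _ = 0
    simp only [map_sub, map_smul, Finsupp.linearCombination_single, one_smul, hδ]
    abel
  · show (relS G).liftQ _ _ (Submodule.Quotient.mk (Finsupp.single g 1)) = _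
    rw [Submodule.liftQ_apply, Finsupp.linearCombination_single, one_smul]

theorem span_d : Submodule.span (RR G) (Set.range (d : G → AM G)) = ⊤ := by
  rw [eq_top_iff]
  rintro x -
  induction x using Submodule.Quotient.induction_on with
  | H x =>
    induction x using Finsupp.induction_linear with
    | zero => exact zero_mem _
    | add f g hf hg =>
      rw [Submodule.Quotient.mk_add]
      exact add_mem hf hg
    | single g r =>
      have h1 : (Finsupp.single g r : G →₀ RR G) = r • Finsupp.single g 1 := by
        rw [Finsupp.smul_single, smul_eq_mul, mul_one]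
      rw [h1, Submodule.Quotient.mk_smul]
      exact Submodule.smul_mem _ _ (Submodule.subset_span ⟨g, rfl⟩)

theorem am_finite (hG : Group.FG G) : Module.Finite (RR G) (AM G) := by
  classical
  obtain ⟨S, hS⟩ := (Group.fg_def.mp hG)
  refine ⟨⟨S.image d, ?_⟩⟩
  rw [eq_top_iff, ← span_d, Submodule.span_le]
  rintro _ ⟨g, rfl⟩
  have hg : g ∈ Subgroup.closure (S : Set G) := by rw [hS]; trivial
  rw [Finset.coe_image]
  induction hg using Subgroup.closure_induction with
  | mem x hx => exact Submodule.subset_span ⟨x, hx, rfl⟩
  | one => rw [d_one]; exact zero_mem _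
  | mul x y _ _ hx hy => rw [d_mul]; exact add_mem hx (Submodule.smul_mem _ _ hy)
  | inv x _ hx => rw [d_inv]; exact neg_mem (Submodule.smul_mem _ _ hx)

theorem rr_noeth (hG : Group.FG G) : IsNoetherianRing (RR G) := by
  have h1 : Group.FG (Abelianization G) := by
    have := hG
    exact Group.fg_of_surjective (f := Abelianization.of (G := G)) QuotientGroup.mk_surjective
  have : Monoid.FG (Abelianization G) := Group.fg_iff_monoid_fg.mp h1
  exact Algebra.FiniteType.isNoetherianRing ℚ (RR G)

/-- the augmentation -/
theorem eps_ex : ∃ F : AM G →ₗ[RR G] RR G, ∀ g, F (d g) = e g - 1 :=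
  lift_ex (fun g => e g - 1) fun g h => by
    rw [map_mul, smul_eq_mul]
    ring

theorem e_comm {g : G} (hg : g ∈ commutator G) : e g = 1 := by
  have : Abelianization.of g = 1 := (QuotientGroup.eq_one_iff g).mpr hg
  show (MonoidAlgebra.of ℚ (Abelianization G)) (Abelianization.of g) = 1
  rw [this, map_one]

theorem d_conj {g y : G} (hy : y ∈ commutator G) : d (g * y * g⁻¹) = e g • d y := by
  rw [d_mul, d_mul, d_inv, map_mul, e_comm hy, mul_one, smul_neg, smul_smul, ← map_mul,
    mul_inv_cancel, map_one, one_smul]
  abel

theorem d_brk (x g : G) : (e x - 1) • d g - (e g - 1) • d x = d (x * g * x⁻¹ * g⁻¹) := by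
  have h1 : x * g * x⁻¹ * g⁻¹ * (g * x) = x * g := by group
  have h2 : e (x * g * x⁻¹ * g⁻¹ : G) = 1 := by
    apply e_comm
    exact Subgroup.commutator_mem_commutator (Subgroup.mem_top x) (Subgroup.mem_top g)
  have h3 := d_mul (x * g * x⁻¹ * g⁻¹) (g * x)
  rw [h1, h2, one_smul] at h3
  rw [sub_smul, sub_smul, one_smul, one_smul]
  rw [← sub_eq_iff_eq_add] at h3
  rw [← h3, d_mul, d_mul]
  abel

end Pool.Agent.R684.PS
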