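import Pool.Agent.R684.PS.Fin

/-!
# Derivations of free groups and finitely generated normal subgroups
-/

set_option autoImplicit false

namespace Pool.Agent.R684.PS

section der

variable {R : Type} [CommRing R]

/-- the affine map `v ↦ w + c v` for an invertible `c` -/
def aff (c c' w : R) (h : c * c' = 1) : Equiv.Perm R where
  toFun v := w + c * v
  invFun v := c' * (v - w)
  left_inv v := by
    show c' * (w + c * v - w) = v
    linear_combination v * h
  right_inv v := by
    show w + c * (c' * (v - w)) = v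
    linear_combination (v - w) * h

theorem der_free {α : Type} (c : FreeGroup α →* R) (w : α → R) :
    ∃ D : FreeGroup α → R, (∀ x y, D (x * y) = D x + c x * D y) ∧
      ∀ a, D (FreeGroup.of a) = w a := by
  have hc : ∀ x : FreeGroup α, c x * c x⁻¹ = 1 := by
    intro x
    rw [← map_mul, mul_inv_cancel, map_one]
  obtain ⟨ψ, hψ⟩ : ∃ ψ : FreeGroup α →* Equiv.Perm R, ∀ a,
      ψ (FreeGroup.of a) = aff (c (FreeGroup.of a)) (c (FreeGroup.of a)⁻¹) (w a) (hc _) :=
    ⟨FreeGroup.lift fun a => aff (c (FreeGroup.of a)) (c (FreeGroup.of a)⁻¹) (w a) (hc _),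
      fun a => FreeGroup.lift_apply_of⟩
  have key : ∀ (x : FreeGroup α) (v : R), ψ x v = ψ x 0 + c x * v := by
    intro x
    induction x using FreeGroup.induction_on with
    | C1 => intro v; simp
    | of a =>
      intro v
      rw [hψ]
      show w a + c (FreeGroup.of a) * v = w a + c (FreeGroup.of a) * 0 + c (FreeGroup.of a) * v
      ring
    | inv_of a _ =>
      intro v
      rw [map_inv, hψ]
      show c (FreeGroup.of a)⁻¹ * (v - w a) = c (FreeGroup.of a)⁻¹ * (0 - w a) +
        c (FreeGroup.of a)⁻¹ * v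
      ring
    | mul x y hx hy =>
      intro v
      rw [map_mul, map_mul, Equiv.Perm.mul_apply, Equiv.Perm.mul_apply, hx (ψ y v),
        hx (ψ y 0), hy v]
      ring
  refine ⟨fun x => ψ x 0, fun x y => ?_, fun a => ?_⟩
  · show ψ (x * y) 0 = _
    rw [map_mul, Equiv.Perm.mul_apply, key x (ψ y 0)]
  · show ψ (FreeGroup.of a) 0 = w a
    rw [hψ]
    show w a + c (FreeGroup.of a) * 0 = w a
    ring

variable {H : Type} [Group H] (c : H →* R) (D : H → R)

theorem D_one (hD : ∀ x y, D (x * y) = D x + c x * D y) : D 1 = 0 := by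
  have h := hD 1 1
  rw [mul_one, map_one, one_mul] at h
  exact left_eq_add.mp h

theorem D_inv (hD : ∀ x y, D (x * y) = D x + c x * D y) (g : H) : D g⁻¹ = -(c g⁻¹ * D g) := by
  have h := hD g⁻¹ g
  rw [inv_mul_cancel, D_one c D hD] at h
  exact eq_neg_of_add_eq_zero_left h.symm

theorem D_conj (hD : ∀ x y, D (x * y) = D x + c x * D y) {g y : H} (hy : c y = 1) :
    D (g * y * g⁻¹) = c g * D y := by
  have h1 : c g * c g⁻¹ = 1 := by rw [← map_mul, mul_inv_cancel, map_one]
  rw [hD, hD, D_inv c D hD, map_mul, hy]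
  linear_combination (-(D g)) * h1

theorem D_brk (hD : ∀ x y, D (x * y) = D x + c x * D y) (x g : H) :
    D (x * g * x⁻¹ * g⁻¹) = (c x - 1) * D g - (c g - 1) * D x := by
  have h1 : x * g * x⁻¹ * g⁻¹ * (g * x) = x * g := by group
  have h2 : c (x * g * x⁻¹ * g⁻¹) = 1 := by
    have h0 : ∀ z : H, c z * c z⁻¹ = 1 := fun z => by rw [← map_mul, mul_inv_cancel, map_one]
    rw [map_mul, map_mul, map_mul]
    linear_combination (c g * c g⁻¹) * h0 x + h0 g
  have h3 := hD (x * g * x⁻¹ * g⁻¹) (g * x)
  rw [h1, h2] at h3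
  have h4 := hD x g
  have h5 := hD g x
  linear_combination h4 - h3 - h5

end der

theorem fd_zero {R : Type} [CommRing R] [Algebra ℚ R] [NoZeroDivisors R] {T : R}
    (hT : ∀ p : Polynomial ℚ, p.Monic → Polynomial.aeval T p ≠ 0) (V : Submodule ℚ R)
    (hV : V.FG) (hTV : ∀ v ∈ V, T * v ∈ V) : ∀ v ∈ V, v = 0 := by
  have hfin : Module.Finite ℚ V := Module.Finite.iff_fg.mpr hV
  obtain ⟨f, hf⟩ : ∃ f : Module.End ℚ V, ∀ v : V, ((f v : V) : R) = T * v :=
    ⟨(LinearMap.mulLeft ℚ T).restrict hTV, fun _ => rfl⟩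
  have key : ∀ (q : Polynomial ℚ) (v : V), ((Polynomial.aeval f q v : V) : R) =
      Polynomial.aeval T q * v := by
    intro q
    induction q using Polynomial.induction_on with
    | C a =>
      intro v
      rw [Polynomial.aeval_C, Polynomial.aeval_C, Algebra.algebraMap_eq_smul_one,
        Algebra.algebraMap_eq_smul_one, smul_mul_assoc, one_mul]
      rfl
    | add p q hp hq =>
      intro v
      rw [map_add, map_add, LinearMap.add_apply, Submodule.coe_add, hp, hq, add_mul]
    | monomial n a h =>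
      intro v
      have h1 : (Polynomial.C a * Polynomial.X ^ (n + 1) : Polynomial ℚ) =
          Polynomial.C a * Polynomial.X ^ n * Polynomial.X := by ring
      rw [h1, map_mul (Polynomial.aeval f) _ Polynomial.X, Polynomial.aeval_X,
        Module.End.mul_apply, h, hf, map_mul (Polynomial.aeval T) _ Polynomial.X,
        Polynomial.aeval_X, mul_assoc]
  intro v hv
  have h1 := key f.charpoly ⟨v, hv⟩
  rw [f.aeval_self_charpoly] at h1
  have h2 : Polynomial.aeval T f.charpoly * v = 0 := h1.symm
  exact (mul_eq_zero.mp h2).resolve_left (hT _ f.charpoly_monic)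

end Pool.Agent.R684.PS
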