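import Pool.Agent.R684.PS.Small

/-!
# Free groups satisfy `Fat`
-/

set_option autoImplicit false

namespace Pool.Agent.R684.PS

theorem hom_comm {B A : Type} [Group B] [CommGroup A] (f : B →* A) {y : B}
    (hy : y ∈ commutator B) : f y = 1 := by
  have h1 : commutator B ≤ f.ker := by
    rw [commutator_def, Subgroup.commutator_le]
    intro a _ b _
    show f (a * b * a⁻¹ * b⁻¹) = 1
    rw [map_mul, map_mul, map_mul, map_inv, map_inv, mul_comm (f a) (f b)]
    group
  exact h1 hy

theorem up_of {B ι : Type} [Group B] (g : ι → B) (hg : Subgroup.closure (Set.range g) = ⊤)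
    (f : B →* Multiplicative (ι →₀ ℤ))
    (hf : ∀ i, f (g i) = Multiplicative.ofAdd (Finsupp.single i 1)) :
    UniqueProds (Abelianization B) := by
  classical
  obtain ⟨back, hback⟩ : ∃ back : (ι →₀ ℤ) →+ Additive (Abelianization B),
      ∀ i, back (Finsupp.single i 1) = Additive.ofMul (Abelianization.of (g i)) :=
    ⟨Finsupp.liftAddHom fun i => zmultiplesHom _ (Additive.ofMul (Abelianization.of (g i))),
      fun i => by
        rw [Finsupp.liftAddHom_apply_single, zmultiplesHom_apply, one_smul]⟩
  have h1 : ∀ y : B, Additive.toMul (back (Multiplicative.toAdd (f y))) = Abelianization.of y := by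
    intro y
    have hy : y ∈ Subgroup.closure (Set.range g) := by rw [hg]; trivial
    induction hy using Subgroup.closure_induction with
    | mem x hx =>
      obtain ⟨i, rfl⟩ := hx
      rw [hf, toAdd_ofAdd, hback, toMul_ofMul]
    | one => rw [map_one, toAdd_one, map_zero, toMul_zero, map_one]
    | mul x y _ _ hx hy => rw [map_mul, toAdd_mul, map_add, toMul_add, hx, hy, map_mul]
    | inv x _ hx => rw [map_inv, toAdd_inv, map_neg, toMul_neg, hx, map_inv]
  have hinj : Function.Injective (Abelianization.lift f) := by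
    rw [injective_iff_map_eq_one]
    intro a ha
    obtain ⟨y, rfl⟩ : ∃ y, Abelianization.of y = a := QuotientGroup.mk_surjective a
    have h2 : f y = 1 := ha
    rw [← h1, h2, toAdd_one, map_zero, toMul_zero]
  exact UniqueProds.of_injective_mulHom (Abelianization.lift f).toMulHom hinj inferInstance

theorem ne_comm {B ι : Type} [Group B] (f : B →* Multiplicative (ι →₀ ℤ)) {t : B} {i : ι}
    (hf : f t = Multiplicative.ofAdd (Finsupp.single i 1)) (n : ℕ) (hn : 0 < n) :
    t ^ n ∉ commutator B := by
  intro h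
  have h1 := hom_comm f h
  rw [map_pow, hf, ← ofAdd_nsmul] at h1
  have h2 : (n • (Finsupp.single i 1 : ι →₀ ℤ)) = 0 := Multiplicative.ofAdd.injective h1
  have h3 := DFunLike.congr_fun h2 i
  rw [Finsupp.smul_apply, Finsupp.single_eq_same, Finsupp.zero_apply, nsmul_eq_mul, mul_one] at h3
  omega

theorem brk_comm {B : Type} [Group B] (x y : B) : x * y * x⁻¹ * y⁻¹ ∈ commutator B :=
  Subgroup.commutator_mem_commutator (Subgroup.mem_top x) (Subgroup.mem_top y)

theorem fat_free {α : Type} {a b : α} (hab : a ≠ b) : Fat (FreeGroup α) := by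
  classical
  obtain ⟨f, hf⟩ : ∃ f : FreeGroup α →* Multiplicative (α →₀ ℤ), ∀ i,
      f (FreeGroup.of i) = Multiplicative.ofAdd (Finsupp.single i 1) :=
    ⟨FreeGroup.lift fun i => Multiplicative.ofAdd (Finsupp.single i 1),
      fun i => FreeGroup.lift_apply_of⟩
  have hup := up_of _ (FreeGroup.closure_range_of α) f hf
  have hinf : ∀ i : α, ∀ n : ℕ, 0 < n → (FreeGroup.of i) ^ n ∉ commutator (FreeGroup α) :=
    fun i => ne_comm f (hf i)
  refine ⟨hup, ⟨_, hinf a⟩, ?_, ?_⟩
  · obtain ⟨D, hD, hw⟩ := der_free (e : FreeGroup α →* RR (FreeGroup α))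
      (Pi.single b 1 : α → RR (FreeGroup α))
    refine ⟨D, hD, _, brk_comm (FreeGroup.of a) (FreeGroup.of b), ?_⟩
    rw [D_brk _ D hD, hw, hw, Pi.single_eq_same, Pi.single_eq_of_ne hab, mul_zero, sub_zero,
      mul_one]
    intro h
    rw [sub_eq_zero] at h
    exact hinf a 1 one_pos (by rw [pow_one]; exact e_eq_one h)
  · intro L hLn hL hLc
    have : IsFreeGroup (⊤ : Subgroup (FreeGroup α)) := inferInstance
    exact small_of ⊤ le_top (FreeGroup.of a) trivial (hinf a) L hL hLc

end Pool.Agent.R684.PS
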