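import Mathlib

/-!
# Invariant homomorphisms from subgroups containing the commutator subgroup
-/

set_option autoImplicit false

namespace Pool.Agent.R684.PS

section fd

variable {K V : Type} [Group K] [AddCommGroup V] [Module ℚ V] (T : Subgroup K)
  (θ : T → V)

theorem th_one (hm : ∀ t t', θ (t * t') = θ t + θ t') : θ 1 = 0 := by
  have h := hm 1 1
  rw [mul_one] at h
  exact left_eq_add.mp h

theorem th_inv (hm : ∀ t t', θ (t * t') = θ t + θ t') (t : T) : θ t⁻¹ = -θ t := by
  have h := hm t⁻¹ t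
  rw [inv_mul_cancel, th_one T θ hm] at h
  exact eq_neg_of_add_eq_zero_left h.symm

/-- commutators as elements of `T` -/
def brk (hT : commutator K ≤ T) (x g : K) : T :=
  ⟨x * g * x⁻¹ * g⁻¹, hT (Subgroup.commutator_mem_commutator (Subgroup.mem_top x)
    (Subgroup.mem_top g))⟩

theorem fd_abs (hK : Group.FG K) [hTn : T.Normal] (hT : commutator K ≤ T)
    (hm : ∀ t t', θ (t * t') = θ t + θ t')
    (hθ : ∀ (x : K) (t t' : T), (t' : K) = x * t * x⁻¹ → θ t' = θ t) :
    ∃ W : Submodule ℚ V, W.FG ∧ ∀ t, θ t ∈ W := by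
  classical
  obtain ⟨S, hS⟩ := Group.fg_def.mp hK
  -- bilinearity
  have b1 : ∀ x x' g : K, θ (brk T hT (x * x') g) = θ (brk T hT x' g) + θ (brk T hT x g) := by
    intro x x' g
    have h1 : brk T hT (x * x') g =
        (⟨x * (brk T hT x' g : K) * x⁻¹, hTn.conj_mem _ (brk T hT x' g).2 x⟩ : T) *
          brk T hT x g := by
      apply Subtype.ext
      show x * x' * g * (x * x')⁻¹ * g⁻¹ = x * (x' * g * x'⁻¹ * g⁻¹) * x⁻¹ * (x * g * x⁻¹ * g⁻¹)
      group
    rw [h1, hm]
    congr 1
    exact hθ x _ _ rfl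
  have b2 : ∀ x g g' : K, θ (brk T hT x (g * g')) = θ (brk T hT x g) + θ (brk T hT x g') := by
    intro x g g'
    have h1 : brk T hT x (g * g') = brk T hT x g *
        (⟨g * (brk T hT x g' : K) * g⁻¹, hTn.conj_mem _ (brk T hT x g').2 g⟩ : T) := by
      apply Subtype.ext
      show x * (g * g') * x⁻¹ * (g * g')⁻¹ = x * g * x⁻¹ * g⁻¹ * (g * (x * g' * x⁻¹ * g'⁻¹) * g⁻¹)
      group
    rw [h1, hm]
    congr 1
    exact hθ g _ _ rfl
  have b1' : ∀ g : K, θ (brk T hT 1 g) = 0 := by
    intro g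
    have h := b1 1 1 g
    rw [mul_one] at h
    exact left_eq_add.mp h
  have b2' : ∀ g : K, θ (brk T hT g 1) = 0 := by
    intro g
    have h := b2 g 1 1
    rw [mul_one] at h
    exact left_eq_add.mp h
  have b1'' : ∀ x g : K, θ (brk T hT x⁻¹ g) = -θ (brk T hT x g) := by
    intro x g
    have h := b1 x⁻¹ x g
    rw [inv_mul_cancel, b1'] at h
    exact eq_neg_of_add_eq_zero_right h.symm
  have b2'' : ∀ x g : K, θ (brk T hT x g⁻¹) = -θ (brk T hT x g) := by
    intro x g
    have h := b2 x g⁻¹ g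
    rw [inv_mul_cancel, b2'] at h
    exact eq_neg_of_add_eq_zero_left h.symm
  -- the subspace spanned by the commutators of generators
  obtain ⟨W1, hW1⟩ : ∃ W : Submodule ℚ V, W = Submodule.span ℚ
      (((S ×ˢ S).image fun p => θ (brk T hT p.1 p.2) : Finset V) : Set V) := ⟨_, rfl⟩
  have h1 : ∀ s ∈ S, ∀ s' ∈ S, θ (brk T hT s s') ∈ W1 := by
    intro s hs s' hs'
    rw [hW1]
    apply Submodule.subset_span
    rw [Finset.mem_coe, Finset.mem_image]
    exact ⟨(s, s'), Finset.mem_product.mpr ⟨hs, hs'⟩, rfl⟩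
  have h2 : ∀ s ∈ S, ∀ g : K, θ (brk T hT s g) ∈ W1 := by
    intro s hs g
    have hg : g ∈ Subgroup.closure (S : Set K) := by rw [hS]; trivial
    induction hg using Subgroup.closure_induction with
    | mem x hx => exact h1 s hs x hx
    | one => rw [b2']; exact zero_mem _
    | mul x y _ _ hx hy => rw [b2]; exact add_mem hx hy
    | inv x _ hx => rw [b2'']; exact neg_mem hx
  have h3 : ∀ x g : K, θ (brk T hT x g) ∈ W1 := by
    intro x g
    have hx : x ∈ Subgroup.closure (S : Set K) := by rw [hS]; trivial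
    induction hx using Subgroup.closure_induction with
    | mem x hx => exact h2 x hx g
    | one => rw [b1']; exact zero_mem _
    | mul x y _ _ hx hy => rw [b1]; exact add_mem hy hx
    | inv x _ hx => rw [b1'']; exact neg_mem hx
  have h4 : ∀ t : T, (t : K) ∈ commutator K → θ t ∈ W1 := by
    rintro ⟨t, ht⟩ htc
    have htc' : t ∈ Subgroup.closure {g : K | ∃ x y : K, x * y * x⁻¹ * y⁻¹ = g} := by
      have := htc
      rw [commutator_eq_closure] at this
      exact this
    clear htc
    have key : ∃ h : t ∈ T, θ ⟨t, h⟩ ∈ W1 := by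
      clear ht
      induction htc' using Subgroup.closure_induction with
      | mem z hz =>
        obtain ⟨x, y, rfl⟩ := hz
        exact ⟨_, h3 x y⟩
      | one =>
        refine ⟨one_mem _, ?_⟩
        have := th_one T θ hm
        show θ 1 ∈ W1
        rw [this]
        exact zero_mem _
      | mul x y _ _ hx hy =>
        obtain ⟨hx1, hx2⟩ := hx
        obtain ⟨hy1, hy2⟩ := hy
        refine ⟨mul_mem hx1 hy1, ?_⟩
        show θ (⟨x, hx1⟩ * ⟨y, hy1⟩) ∈ W1
        rw [hm]
        exact add_mem hx2 hy2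
      | inv x _ hx =>
        obtain ⟨hx1, hx2⟩ := hx
        refine ⟨inv_mem hx1, ?_⟩
        show θ (⟨x, hx1⟩⁻¹) ∈ W1
        rw [th_inv T θ hm]
        exact neg_mem hx2
    exact key.2
  -- the abelian part
  obtain ⟨q, hq⟩ : ∃ q : T →* Abelianization K, ∀ t, q t = Abelianization.of (t : K) :=
    ⟨Abelianization.of.comp T.subtype, fun _ => rfl⟩
  have hKab : Group.FG (Abelianization K) := by
    have := hK
    exact Group.fg_of_surjective (f := Abelianization.of (G := K)) QuotientGroup.mk_surjective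
  have hfg : q.range.FG := by
    have h5 : AddGroup.FG (Additive (Abelianization K)) := AddGroup.fg_iff_mul_fg.mpr (by
      exact hKab)
    have h6 : Module.Finite ℤ (Additive (Abelianization K)) := Module.Finite.iff_addGroup_fg.mpr h5
    have h7 : (AddSubgroup.toIntSubmodule (Subgroup.toAddSubgroup q.range)).FG :=
      IsNoetherian.noetherian _
    have h8 := (Submodule.fg_iff_addSubgroup_fg _).mp h7
    exact (Subgroup.fg_iff_add_fg _).mpr h8
  obtain ⟨Y0, hY0⟩ := hfg
  have hpre : ∀ z : Abelianization K, ∃ t : T, z ∈ Y0 → q t = z := by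
    intro z
    by_cases hz : z ∈ Y0
    · have : z ∈ q.range := by rw [← hY0]; exact Subgroup.subset_closure hz
      obtain ⟨t, ht⟩ := this
      exact ⟨t, fun _ => ht⟩
    · exact ⟨1, fun h => absurd h hz⟩
  choose pr hpr using hpre
  obtain ⟨W2, hW2⟩ : ∃ W : Submodule ℚ V, W = Submodule.span ℚ
      ((Y0.image fun z => θ (pr z) : Finset V) : Set V) := ⟨_, rfl⟩
  refine ⟨W1 ⊔ W2, ?_, fun t => ?_⟩
  · rw [hW1, hW2]
    exact Submodule.FG.sup ⟨_, rfl⟩ ⟨_, rfl⟩
  · have h9 : ∀ z ∈ Subgroup.closure (Y0 : Set (Abelianization K)),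
        ∃ t : T, q t = z ∧ θ t ∈ W2 := by
      intro z hz
      induction hz using Subgroup.closure_induction with
      | mem z hz =>
        refine ⟨pr z, hpr z hz, ?_⟩
        rw [hW2]
        apply Submodule.subset_span
        rw [Finset.mem_coe, Finset.mem_image]
        exact ⟨z, hz, rfl⟩
      | one => exact ⟨1, map_one q, by rw [th_one T θ hm]; exact zero_mem _⟩
      | mul x y _ _ hx hy =>
        obtain ⟨t, ht, ht'⟩ := hx
        obtain ⟨u, hu, hu'⟩ := hy
        exact ⟨t * u, by rw [map_mul, ht, hu], by rw [hm]; exact add_mem ht' hu'⟩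
      | inv x _ hx =>
        obtain ⟨t, ht, ht'⟩ := hx
        exact ⟨t⁻¹, by rw [map_inv, ht], by rw [th_inv T θ hm]; exact neg_mem ht'⟩
    obtain ⟨u, hu, hu'⟩ := h9 (q t) (by rw [hY0]; exact ⟨t, rfl⟩)
    have h10 : t = (t * u⁻¹) * u := by group
    rw [h10, hm]
    refine add_mem (Submodule.mem_sup_left (h4 _ ?_)) (Submodule.mem_sup_right hu')
    have h11 : q (t * u⁻¹) = 1 := by rw [map_mul, map_inv, hu, mul_inv_cancel]
    rw [hq] at h11
    exact (QuotientGroup.eq_one_iff _).mp h11

end fd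

end Pool.Agent.R684.PS
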