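import Pool.Agent.R684.PS.Nk

/-!
# Finitely generated normal subgroups with large quotients

A finitely generated group has only finitely many finitely generated normal subgroups with quotient
satisfying `Fat` (e.g. nonabelian free groups, hyperbolic surface groups).
-/

set_option autoImplicit false

namespace Pool.Agent.R684.PS

/-- the condition on the quotients -/
structure Fat (B : Type) [Group B] : Prop where
  up : UniqueProds (Abelianization B)
  inf : ∃ t : B, ∀ n : ℕ, 0 < n → t ^ n ∉ commutator B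
  der : ∃ D : B → RR B, (∀ x y, D (x * y) = D x + e x * D y) ∧ ∃ b ∈ commutator B, D b ≠ 0
  small : ∀ L : Subgroup B, L.Normal → L.FG → L ≤ commutator B → L = ⊥

theorem aeval_ne {B : Type} [Group B] {t : B} (ht : ∀ n : ℕ, 0 < n → t ^ n ∉ commutator B)
    {p : Polynomial ℚ} (hp : p.Monic) : Polynomial.aeval (e t : RR B) p ≠ 0 := by
  intro h
  have h1 : (Polynomial.aeval (e t : RR B) p).coeff (Abelianization.of (t ^ p.natDegree)) = 1 := by
    rw [Polynomial.aeval_eq_sum_range, Finset.sum_range_succ]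
    have h2 : ∀ i : ℕ, (e t : RR B) ^ i = MonoidAlgebra.single (Abelianization.of (t ^ i)) 1 := by
      intro i
      rw [← map_pow]
      rfl
    rw [MonoidAlgebra.coeff_add, Finsupp.add_apply, h2, MonoidAlgebra.smul_single,
      MonoidAlgebra.coeff_single, Finsupp.single_eq_same, smul_eq_mul, mul_one]
    have h3 : p.coeff p.natDegree = 1 := hp
    rw [h3]
    have h4 : (∑ i ∈ Finset.range p.natDegree, p.coeff i • (e t : RR B) ^ i).coeff
        (Abelianization.of (t ^ p.natDegree)) = 0 := by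
      rw [MonoidAlgebra.coeff_sum, Finsupp.finsetSum_apply]
      refine Finset.sum_eq_zero fun i hi => ?_
      rw [h2, MonoidAlgebra.smul_single, MonoidAlgebra.coeff_single]
      refine Finsupp.single_eq_of_ne ?_
      intro h5
      have hi' : i < p.natDegree := Finset.mem_range.mp hi
      have h6 : (t ^ i)⁻¹ * t ^ p.natDegree ∈ commutator B := QuotientGroup.eq.mp h5.symm
      refine ht (p.natDegree - i) (by omega) ?_
      have h7 : (t ^ i)⁻¹ * t ^ p.natDegree = t ^ (p.natDegree - i) := by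
        rw [inv_mul_eq_iff_eq_mul, ← pow_add]
        congr 1
        omega
      rwa [h7] at h6
    rw [h4, zero_add]
  rw [h] at h1
  rw [MonoidAlgebra.coeff_zero, Finsupp.zero_apply] at h1
  exact zero_ne_one h1

variable {G B : Type} [Group G] [Group B] (π : G →* B)

theorem ex_s' (hG : Group.FG G) (hπ : Function.Surjective π) (hB : Fat B) (hK : π.ker.FG) :
    ∃ s : RR G, ph π s ≠ 0 ∧ ∀ n ∈ NK π.ker, s • n = 0 := by
  have hup := hB.up
  have : NoZeroDivisors (RR B) := inferInstance
  obtain ⟨t, ht⟩ := hB.inf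
  obtain ⟨t0, rfl⟩ := hπ t
  have hV := vk_finite hK
  have hno := rr_noeth hG
  have hAM := am_finite hG
  obtain ⟨f, hf⟩ : ∃ f : Module.End ℚ (VK π.ker), f = Algebra.lsmul ℚ ℚ (VK π.ker) (e t0 : RR G) :=
    ⟨_, rfl⟩
  obtain ⟨p, hp⟩ : ∃ p, p = f.charpoly := ⟨_, rfl⟩
  have hpm : p.Monic := by rw [hp]; exact f.charpoly_monic
  have hp0 : Polynomial.aeval f p = 0 := by rw [hp]; exact f.aeval_self_charpoly
  obtain ⟨s, hs⟩ : ∃ s : RR G, s = Polynomial.aeval (e t0 : RR G) p := ⟨_, rfl⟩
  have hs0 : ∀ v : VK π.ker, s • v = 0 := by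
    intro v
    rw [hf, Polynomial.aeval_algHom_apply, ← hs] at hp0
    exact LinearMap.congr_fun hp0 v
  have hs1 : ph π s ≠ 0 := by
    rw [hs, ← Polynomial.aeval_algHom_apply, ph_e]
    exact aeval_ne ht hpm
  obtain ⟨f2, hf2⟩ : ∃ f2 : Module.End (RR G) (NK π.ker),
      f2 = Algebra.lsmul (RR G) (RR G) (NK π.ker) s := ⟨_, rfl⟩
  have hrange : LinearMap.range f2 ≤ IK π.ker • (⊤ : Submodule (RR G) (NK π.ker)) := by
    rintro _ ⟨n, rfl⟩
    rw [← Submodule.Quotient.mk_eq_zero, hf2]
    exact hs0 (Submodule.Quotient.mk n)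
  obtain ⟨q, hq1, -, hq2, hq3⟩ :=
    LinearMap.exists_monic_and_natDegree_eq_and_coeff_mem_pow_and_aeval_eq_zero (RR G)
      f2 (IK π.ker) hrange
  refine ⟨Polynomial.aeval s q, ?_, fun n hn => ?_⟩
  · have h1 : ph π (Polynomial.aeval s q) = ph π s ^ q.natDegree := by
      rw [Polynomial.aeval_eq_sum_range, Finset.sum_range_succ, map_add, map_sum]
      have h2 : q.coeff q.natDegree = 1 := hq1
      rw [h2, one_smul, map_pow]
      have h3 : ∑ i ∈ Finset.range q.natDegree, ph π (q.coeff i • s ^ i) = 0 := by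
        refine Finset.sum_eq_zero fun i hi => ?_
        have hi' : i < q.natDegree := Finset.mem_range.mp hi
        have h4 : q.coeff i ∈ IK π.ker :=
          Ideal.pow_le_self (by omega) (hq2 i)
        have h5 : ph π (q.coeff i) = 0 := IK_le π h4
        rw [smul_eq_mul, map_mul, h5, zero_mul]
      rw [h3, zero_add]
    rw [h1]
    exact pow_ne_zero _ hs1
  · rw [hf2, Polynomial.aeval_algHom_apply] at hq3
    have h1 := LinearMap.congr_fun hq3 ⟨n, hn⟩
    exact congrArg Subtype.val h1

/-- the augmentation of the Alexander module -/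
noncomputable def eps (G : Type) [Group G] : AM G →ₗ[RR G] RR G := Classical.choose eps_ex

theorem eps_d (g : G) : eps G (d g) = e g - 1 := Classical.choose_spec eps_ex g

/-- the annihilator of the kernel of the augmentation -/
noncomputable def ann (G : Type) [Group G] : Ideal (RR G) :=
  Module.annihilator (RR G) (LinearMap.ker (eps G))

theorem mem_ann {r : RR G} : r ∈ ann G ↔ ∀ m : AM G, eps G m = 0 → r • m = 0 := by
  rw [ann, Module.mem_annihilator]
  constructor
  · intro h m hm
    exact congrArg Subtype.val (h ⟨m, hm⟩)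
  · rintro h ⟨m, hm⟩
    exact Subtype.ext (h m hm)

theorem ann_le (hπ : Function.Surjective π) (hB : Fat B) : ann G ≤ RingHom.ker (ph π) := by
  intro r hr
  have hup := hB.up
  have : NoZeroDivisors (RR B) := inferInstance
  obtain ⟨D, hD, b, hb, hDb⟩ := hB.der
  let _ : Module (RR G) (RR B) := Module.compHom (RR B) (ph π).toRingHom
  have hsm : ∀ (r : RR G) (x : RR B), r • x = ph π r * x := fun _ _ => rfl
  obtain ⟨F, hF⟩ := lift_ex (G := G) (W := RR B) (fun g => D (π g)) (fun g h => by
    rw [map_mul, hD, hsm, ph_e])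
  have h3 : commutator B = (commutator G).map π := by
    rw [commutator_def, commutator_def, Subgroup.map_commutator, Subgroup.map_top_of_surjective π hπ]
  rw [h3] at hb
  obtain ⟨c, hc, rfl⟩ := hb
  have h1 : eps G (d c) = 0 := by rw [eps_d, e_comm hc, sub_self]
  have h2 := mem_ann.mp hr (d c) h1
  have h4 : F (r • d c) = 0 := by rw [h2, map_zero]
  rw [map_smul, hF, hsm] at h4
  exact (mul_eq_zero.mp h4).resolve_right hDb

theorem ker_prime (hB : Fat B) : (RingHom.ker (ph π)).IsPrime := by
  have hup := hB.up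
  have : NoZeroDivisors (RR B) := inferInstance
  have : IsDomain (RR B) := NoZeroDivisors.to_isDomain _
  exact RingHom.ker_isPrime _

theorem min_prime (hG : Group.FG G) (hπ : Function.Surjective π) (hB : Fat B) (hK : π.ker.FG) :
    IK π.ker ∈ (ann G).minimalPrimes := by
  have hP := ker_prime π hB
  rw [← IK_eq π hπ] at hP
  refine ⟨⟨hP, by rw [IK_eq π hπ]; exact ann_le π hπ hB⟩, ?_⟩
  rintro Q ⟨hQ, hIQ⟩ hQP
  obtain ⟨s, hs, hsN⟩ := ex_s' π hG hπ hB hK
  have hsQ : s ∉ Q := fun h => by
    have h1 := hQP h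
    rw [IK_eq π hπ] at h1
    exact hs h1
  rw [IK, Ideal.span_le]
  rintro _ ⟨x, hx, rfl⟩
  have h1 : s * (e x - 1) ∈ ann G := by
    rw [mem_ann]
    intro m hm
    rw [mul_smul]
    exact hsN _ (brk_smul (eps G) eps_d hx hm)
  exact (hQ.mem_or_mem (hIQ h1)).resolve_left hsQ

theorem fg_map {G H : Type} [Group G] [Group H] {K : Subgroup G} (hK : K.FG) (f : G →* H) :
    (K.map f).FG := by
  classical
  obtain ⟨S, hS⟩ := hK
  exact ⟨S.image f, by rw [Finset.coe_image, ← MonoidHom.map_closure, hS]⟩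

/-- the finitely generated normal subgroups with large quotients -/
def FK (G : Type) [Group G] : Set (Subgroup G) :=
  {K | K.FG ∧ ∃ (B : Type) (_ : Group B) (π : G →* B), Function.Surjective π ∧ Fat B ∧ π.ker = K}

theorem IK_inj (hπ : Function.Surjective π) (hB : Fat B) {K' : Subgroup G} [hK' : K'.Normal]
    (hfg : K'.FG) (h : IK K' ≤ IK π.ker) : K' ≤ π.ker := by
  have h1 : ∀ x ∈ K', π x ∈ commutator B := by
    intro x hx
    have h2 : e x - 1 ∈ IK π.ker := h (IK_mem hx)
    have h3 : ph π (e x - 1) = 0 := IK_le _ h2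
    rw [map_sub, map_one, ph_e, sub_eq_zero] at h3
    have h4 : (MonoidAlgebra.single (Abelianization.of (π x)) (1 : ℚ) :
        RR B) = MonoidAlgebra.single 1 1 := h3
    have h5 : Abelianization.of (π x) = 1 := by
      have h6 := congrArg MonoidAlgebra.coeff h4
      rw [MonoidAlgebra.coeff_single, MonoidAlgebra.coeff_single] at h6
      exact (Finsupp.single_left_injective one_ne_zero h6)
    exact (QuotientGroup.eq_one_iff _).mp h5
  have h2 : K'.map π = ⊥ := by
    refine hB.small _ (hK'.map _ hπ) (fg_map hfg _) ?_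
    rintro _ ⟨x, hx, rfl⟩
    exact h1 x hx
  intro x hx
  have h3 : π x ∈ K'.map π := ⟨x, hx, rfl⟩
  rw [h2] at h3
  exact h3

/-- **finiteness** -/
theorem fk_finite (hG : Group.FG G) : (FK G).Finite := by
  have hno := rr_noeth hG
  have h1 : ((ann G).minimalPrimes).Finite := Ideal.finite_minimalPrimes_of_isNoetherianRing _ _
  refine Set.Finite.of_finite_image (h1.subset ?_) (f := IK) ?_
  · rintro _ ⟨K, ⟨hfg, B, iB, π, hπ, hB, rfl⟩, rfl⟩
    exact min_prime π hG hπ hB hfg
  · rintro K ⟨hfg, B, iB, π, hπ, hB, rfl⟩ K' ⟨hfg', B', iB', π', hπ', hB', rfl⟩ h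
    exact le_antisymm (IK_inj π' hπ' hB' hfg h.le) (IK_inj π hπ hB hfg' h.ge)

end Pool.Agent.R684.PS
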