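import Pool.Agent.R684.FP.Free
import Pool.Agent.R684.PS.Fin

/-!
# Kernels for which all extensions stay in the class
-/

set_option autoImplicit false

open scoped Pointwise

namespace Pool.Agent.R684.PS

open Pool.Agent.Y110.FJ
open Pool.Agent.Y462.SS (Closed)
open Pool.Agent.R684.FP
open Pool.Agent.R941.FJ (C_equiv C_le C_cyc mem_sup_normal)

/-- all extensions with kernel `N` and quotient in `C` are in `C` -/
def Good (C : ∀ (G : Type) [Group G], Prop) (N : Type) [Group N] : Prop :=
  ∀ (E : Type) [Group E] (M : Subgroup E) [M.Normal], Nonempty (M ≃* N) → C (E ⧸ M) → C E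

variable {C : ∀ (G : Type) [Group G], Prop}

theorem equiv_of_ker {X Y Z : Type} [Group X] [Group Y] [Group Z] (a : X →* Y) (b : X →* Z)
    (ha : Function.Surjective a) (hb : Function.Surjective b) (h : a.ker = b.ker) :
    Nonempty (Y ≃* Z) :=
  ⟨(QuotientGroup.quotientKerEquivOfSurjective a ha).symm.trans
    ((QuotientGroup.quotientMulEquivOfEq h).trans
      (QuotientGroup.quotientKerEquivOfSurjective b hb))⟩

/-- the extension in two steps, if the kernel of the projection is invariant -/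
theorem good_two (hC : ClosedE C) {G B : Type} [Group G] [Group B] (π : G →* B)
    (hπ : Function.Surjective π) (hgB : Good C B) (hgK : Good C π.ker) {E : Type} [Group E]
    (M : Subgroup E) [hMn : M.Normal] (f : M ≃* G)
    (hinv : ∀ (x : E) (m m' : M), (m' : E) = x * m * x⁻¹ → π (f m) = 1 → π (f m') = 1)
    (hQ : C (E ⧸ M)) : C E := by
  obtain ⟨ρ, hρ⟩ : ∃ ρ : M →* B, ρ = π.comp f.toMonoidHom := ⟨_, rfl⟩
  have hρs : Function.Surjective ρ := by rw [hρ]; exact hπ.comp f.surjective
  have hker : ρ.ker.map f.toMonoidHom = π.ker := by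
    ext x
    constructor
    · rintro ⟨m, hm, rfl⟩
      rw [hρ] at hm
      exact hm
    · intro hx
      refine ⟨f.symm x, ?_, f.apply_symm_apply x⟩
      show ρ (f.symm x) = 1
      rw [hρ]
      show π (f (f.symm x)) = 1
      rw [f.apply_symm_apply]
      exact hx
  obtain ⟨K', hK'⟩ : ∃ K' : Subgroup E, K' = ρ.ker.map M.subtype := ⟨_, rfl⟩
  have hmem : ∀ x : E, x ∈ K' ↔ ∃ h : x ∈ M, ρ ⟨x, h⟩ = 1 := by
    intro x
    rw [hK']
    constructor
    · rintro ⟨m, hm, rfl⟩
      exact ⟨m.2, hm⟩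
    · rintro ⟨h, h'⟩
      exact ⟨⟨x, h⟩, h', rfl⟩
  have hK'M : K' ≤ M := fun x hx => ((hmem x).mp hx).1
  have hK1n : K'.Normal := by
    refine ⟨fun k hk x => ?_⟩
    rw [hmem] at hk ⊢
    obtain ⟨h, h'⟩ := hk
    refine ⟨hMn.conj_mem _ h x, ?_⟩
    rw [hρ] at h' ⊢
    exact hinv x ⟨k, h⟩ ⟨_, hMn.conj_mem _ h x⟩ rfl h'
  have hCq : C (E ⧸ K') := by
    have hn : (M.map (QuotientGroup.mk' K')).Normal :=
      Subgroup.Normal.map inferInstance _ (QuotientGroup.mk'_surjective _)
    refine hgB (E ⧸ K') (M.map (QuotientGroup.mk' K')) ?_ ?_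
    · refine equiv_of_ker (X := M) ((QuotientGroup.mk' K').subgroupMap M) ρ
        (MonoidHom.subgroupMap_surjective _ _) hρs ?_
      ext x
      have h1 : x ∈ ((QuotientGroup.mk' K').subgroupMap M).ker ↔ (x : E) ∈ K' := by
        rw [MonoidHom.mem_ker]
        constructor
        · intro h
          have h2 : QuotientGroup.mk' K' (x : E) = 1 := congrArg Subtype.val h
          exact (QuotientGroup.eq_one_iff (x : E)).mp h2
        · intro h
          apply Subtype.ext
          exact (QuotientGroup.eq_one_iff (x : E)).mpr h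
      rw [h1, hmem]
      constructor
      · rintro ⟨h, h'⟩
        exact h'
      · intro h
        exact ⟨x.2, h⟩
    · exact C_equiv hC.base (QuotientGroup.quotientQuotientEquivQuotient _ _ hK'M) hQ
  refine hgK E K' ⟨?_⟩ hCq
  refine (MulEquiv.subgroupCongr hK').trans ?_
  refine (ρ.ker.equivMapOfInjective M.subtype M.subtype_injective).symm.trans ?_
  exact (f.subgroupMap ρ.ker).trans (MulEquiv.subgroupCongr hker)

/-- subgroups of the extension containing the kernel -/
theorem C_sub_quot (hC : ClosedE C) {E : Type} [Group E] (M : Subgroup E) [M.Normal]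
    (hQ : C (E ⧸ M)) (E1 : Subgroup E) : C (E1 ⧸ M.subgroupOf E1) := by
  have h1 : ((QuotientGroup.mk' M).comp E1.subtype).ker = M.subgroupOf E1 := by
    ext x
    exact QuotientGroup.eq_one_iff (x : E)
  refine C_equiv hC.base (QuotientGroup.quotientMulEquivOfEq h1.symm) ?_
  exact hC.base.of_injective _ _ _ (QuotientGroup.kerLift_injective _) hQ

/-- the normalizer of a subgroup with finite orbit -/
theorem orb_stab {E : Type} [Group E] (K' : Subgroup E) (S : Set (Subgroup E)) (hS : S.Finite)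
    (h : ∀ x : E, K'.map (MulAut.conj x).toMonoidHom ∈ S) :
    ∃ E1 : Subgroup E, E1.FiniteIndex ∧
      ∀ x, x ∈ E1 ↔ K'.map (MulAut.conj x).toMonoidHom = K' := by
  let _ : MulAction E (Subgroup E) :=
    MulAction.compHom (Subgroup E) (MulAut.conj : E →* MulAut E)
  have horb : (MulAction.orbit E K').Finite := by
    refine hS.subset ?_
    rintro _ ⟨x, rfl⟩
    exact h x
  refine ⟨MulAction.stabilizer E K', ?_, fun x => Iff.rfl⟩
  have h1 : Finite (MulAction.orbit E K') := horb
  have h2 : Finite (E ⧸ MulAction.stabilizer E K') :=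
    Finite.of_equiv _ (MulAction.orbitEquivQuotientStabilizer E K')
  exact Subgroup.finiteIndex_of_finite_quotient

theorem map_conj_eq {E : Type} [Group E] {K' P : Subgroup E}
    (h1 : ∀ n ∈ P, ∀ k ∈ K', n * k * n⁻¹ ∈ K') {m : E} (hm : m ∈ P) :
    K'.map (MulAut.conj m).toMonoidHom = K' := by
  apply le_antisymm
  · rintro _ ⟨k, hk, rfl⟩
    exact h1 m hm k hk
  · intro k hk
    refine ⟨m⁻¹ * k * m⁻¹⁻¹, h1 m⁻¹ (inv_mem hm) k hk, ?_⟩
    show m * (m⁻¹ * k * m⁻¹⁻¹) * m⁻¹ = k
    group

/-- **the main step** -/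
theorem good_step (hC : ClosedE C) {G B : Type} [Group G] [Group B] (hG : Group.FG G) (π : G →* B)
    (hπ : Function.Surjective π) (hB : Fat B) (hk : π.ker.FG) (hgB : Good C B)
    (hgK : Good C π.ker) : Good C G := by
  intro E _ M hMn ⟨f⟩ hQ
  obtain ⟨ρ, hρ⟩ : ∃ ρ : M →* B, ρ = π.comp f.toMonoidHom := ⟨_, rfl⟩
  have hρs : Function.Surjective ρ := by rw [hρ]; exact hπ.comp f.surjective
  have hker' : ρ.ker = π.ker.map f.symm.toMonoidHom := by
    ext x
    constructor
    · intro hx
      refine ⟨f x, ?_, f.symm_apply_apply x⟩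
      rw [hρ] at hx
      exact hx
    · rintro ⟨y, hy, rfl⟩
      show ρ (f.symm y) = 1
      rw [hρ]
      show π (f (f.symm y)) = 1
      rw [f.apply_symm_apply]
      exact hy
  have hM : Group.FG M := by
    have := hG
    exact Group.fg_of_surjective (f := f.symm.toMonoidHom) f.symm.surjective
  have hfin := fk_finite hM
  obtain ⟨K', hK'⟩ : ∃ K' : Subgroup E, K' = ρ.ker.map M.subtype := ⟨_, rfl⟩
  have hmem : ∀ x : E, x ∈ K' ↔ ∃ h : x ∈ M, ρ ⟨x, h⟩ = 1 := by
    intro x
    rw [hK']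
    constructor
    · rintro ⟨m, hm, rfl⟩
      exact ⟨m.2, hm⟩
    · rintro ⟨h, h'⟩
      exact ⟨⟨x, h⟩, h', rfl⟩
  obtain ⟨E1, hfi, hE1⟩ := orb_stab K' _ (hfin.image fun L => L.map M.subtype) fun x => by
    refine ⟨ρ.ker.map (MulAut.conjNormal x).toMonoidHom, ⟨?_, B, inferInstance,
      ρ.comp (MulAut.conjNormal x).symm.toMonoidHom, ?_, hB, ?_⟩, ?_⟩
    · rw [hker']
      exact fg_map (fg_map hk _) _
    · exact hρs.comp (MulEquiv.surjective _)
    · ext y
      constructor
      · intro hy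
        exact ⟨(MulAut.conjNormal x).symm y, hy, (MulAut.conjNormal x).apply_symm_apply y⟩
      · rintro ⟨z, hz, rfl⟩
        show ρ ((MulAut.conjNormal x).symm ((MulAut.conjNormal x) z)) = 1
        rw [MulEquiv.symm_apply_apply]
        exact hz
    · show (ρ.ker.map (MulAut.conjNormal x).toMonoidHom).map M.subtype = _
      rw [hK', Subgroup.map_map, Subgroup.map_map]
      congr 1
  have hME : M ≤ E1 := by
    intro m hm
    rw [hE1]
    refine map_conj_eq (P := M) (fun n hn k hk => ?_) hm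
    rw [hmem] at hk ⊢
    obtain ⟨h, h'⟩ := hk
    refine ⟨mul_mem (mul_mem hn h) (inv_mem hn), ?_⟩
    have : (⟨n * k * n⁻¹, mul_mem (mul_mem hn h) (inv_mem hn)⟩ : M) =
      ⟨n, hn⟩ * ⟨k, h⟩ * ⟨n, hn⟩⁻¹ := rfl
    rw [this, map_mul, map_mul, h', mul_one, ← map_mul, mul_inv_cancel, map_one]
  refine hC.base.finiteIndex E E1 hfi ?_
  refine good_two hC π hπ hgB hgK (M.subgroupOf E1)
    ((Subgroup.subgroupOfEquivOfLe hME).trans f) ?_ (C_sub_quot hC M hQ E1)
  intro x m m' hm' hm
  have h1 : ((m : E1) : E) ∈ K' := by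
    rw [hmem]
    refine ⟨m.2, ?_⟩
    rw [hρ]
    exact hm
  have h2 : ((m' : E1) : E) ∈ K' := by
    have h3 := (hE1 x).mp x.2
    rw [← h3]
    refine ⟨((m : E1) : E), h1, ?_⟩
    exact (congrArg Subtype.val hm').symm
  rw [hmem] at h2
  obtain ⟨_, h4⟩ := h2
  rw [hρ] at h4
  exact h4

/-- extensions by characteristic subgroups -/
theorem good_char (hC : ClosedE C) {G : Type} [Group G] (K : Subgroup G) [K.Normal]
    (hK : K.Characteristic) (hgK : Good C K) (hgQ : Good C (G ⧸ K)) : Good C G := by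
  intro E _ M hMn ⟨f⟩ hQ
  have hker : (QuotientGroup.mk' K).ker = K := QuotientGroup.ker_mk' K
  refine good_two hC (QuotientGroup.mk' K) (QuotientGroup.mk'_surjective K) hgQ ?_ M f ?_ hQ
  · intro E' _ M' _ ⟨f'⟩ hQ'
    exact hgK E' M' ⟨f'.trans (MulEquiv.subgroupCongr hker)⟩ hQ'
  · intro x m m' hm' hm
    have h1 : f m ∈ K := (QuotientGroup.eq_one_iff _).mp hm
    refine (QuotientGroup.eq_one_iff _).mpr ?_
    have h2 : m' = MulAut.conjNormal x m := by
      apply Subtype.ext
      rw [hm', MulAut.conjNormal_apply]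
    have h3 := hK.fixed ((f.symm.trans (MulAut.conjNormal x)).trans f)
    rw [← h3] at h1
    rw [← h3]
    have h4 : f m' = ((f.symm.trans (MulAut.conjNormal x)).trans f) (f m) := by
      show f m' = f (MulAut.conjNormal x (f.symm (f m)))
      rw [f.symm_apply_apply, h2]
    rw [h4]
    rw [h3] at h1 ⊢
    have h5 : ((f.symm.trans (MulAut.conjNormal x)).trans f) (f m) ∈
        K.map ((f.symm.trans (MulAut.conjNormal x)).trans f).toMonoidHom := ⟨f m, h1, rfl⟩
    rwa [Subgroup.characteristic_iff_map_eq.mp hK] at h5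

end Pool.Agent.R684.PS
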