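import Pool.Agent.R684.PS.Surf

/-!
# Surface groups are free-by-cyclic (with an infinitely generated free kernel)
-/

set_option autoImplicit false

namespace Pool.Agent.R684.PS

section sf

variable (n : ℕ)

/-- the basis of the free kernel -/
abbrev SX := Option (ℤ × Fin (n + 1) × Bool)

/-- the product of the commutators of level `k` -/
def ck (k : ℤ) : FreeGroup (SX n) :=
  srel (n + 1) (fun i => FreeGroup.of (some (k, i, false))) (fun i => FreeGroup.of (some (k, i, true)))

/-- the shift -/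
def tau : FreeGroup (SX n) →* FreeGroup (SX n) := FreeGroup.lift fun x =>
  match x with
  | none => (ck n 0)⁻¹ * FreeGroup.of none
  | some (k, i, c) => FreeGroup.of (some (k + 1, i, c))

/-- the inverse of the shift -/
def tau' : FreeGroup (SX n) →* FreeGroup (SX n) := FreeGroup.lift fun x =>
  match x with
  | none => ck n (-1) * FreeGroup.of none
  | some (k, i, c) => FreeGroup.of (some (k - 1, i, c))

theorem tau_none : tau n (FreeGroup.of none) = (ck n 0)⁻¹ * FreeGroup.of none := by
  rw [tau, FreeGroup.lift_apply_of]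

theorem tau_some (k : ℤ) (i : Fin (n + 1)) (c : Bool) :
    tau n (FreeGroup.of (some (k, i, c))) = FreeGroup.of (some (k + 1, i, c)) := by
  rw [tau, FreeGroup.lift_apply_of]

theorem tau'_none : tau' n (FreeGroup.of none) = ck n (-1) * FreeGroup.of none := by
  rw [tau', FreeGroup.lift_apply_of]

theorem tau'_some (k : ℤ) (i : Fin (n + 1)) (c : Bool) :
    tau' n (FreeGroup.of (some (k, i, c))) = FreeGroup.of (some (k - 1, i, c)) := by
  rw [tau', FreeGroup.lift_apply_of]

theorem tau_ck (k : ℤ) : tau n (ck n k) = ck n (k + 1) := by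
  rw [ck, map_srel, ck]
  simp only [tau_some]

theorem tau'_ck (k : ℤ) : tau' n (ck n k) = ck n (k - 1) := by
  rw [ck, map_srel, ck]
  simp only [tau'_some]

/-- the shift as an automorphism -/
def tauA : MulAut (FreeGroup (SX n)) := MonoidHom.toMulEquiv (tau n) (tau' n)
  (by
    apply FreeGroup.ext_hom
    rintro (_ | ⟨k, i, c⟩)
    · show tau' n (tau n (FreeGroup.of none)) = FreeGroup.of none
      rw [tau_none, map_mul, map_inv, tau'_ck, tau'_none]
      group
    · show tau' n (tau n (FreeGroup.of (some (k, i, c)))) = FreeGroup.of (some (k, i, c))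
      rw [tau_some, tau'_some, add_sub_cancel_right])
  (by
    apply FreeGroup.ext_hom
    rintro (_ | ⟨k, i, c⟩)
    · show tau n (tau' n (FreeGroup.of none)) = FreeGroup.of none
      rw [tau'_none, map_mul, tau_ck, tau_none]
      group
    · show tau n (tau' n (FreeGroup.of (some (k, i, c)))) = FreeGroup.of (some (k, i, c))
      rw [tau'_some, tau_some, sub_add_cancel])

theorem tauA_apply (x : FreeGroup (SX n)) : tauA n x = tau n x := rfl

/-- the free-by-cyclic group -/
abbrev SFC := FreeGroup (SX n) ⋊[zpowersHom (MulAut (FreeGroup (SX n))) (tauA n)] Zm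

theorem srel_succ {H : Type} [Group H] (g : ℕ) (a b : Fin (g + 1) → H) :
    srel (g + 1) a b = a 0 * b 0 * (a 0)⁻¹ * (b 0)⁻¹ * srel g (fun i => a i.succ) fun i => b i.succ := by
  rw [srel, List.ofFn_succ, List.prod_cons]
  rfl

theorem inr_conj (x : FreeGroup (SX n)) : (SemidirectProduct.inr (Multiplicative.ofAdd 1) : SFC n) *
    SemidirectProduct.inl x * (SemidirectProduct.inr (Multiplicative.ofAdd 1))⁻¹ =
      SemidirectProduct.inl (tau n x) := by
  rw [← map_inv, ← SemidirectProduct.inl_aut, zpowersHom_apply, toAdd_ofAdd, zpow_one, tauA_apply]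

theorem Phi_ex : ∃ Φ : Surf (n + 2) →* SFC n,
    Φ (sa 0) = SemidirectProduct.inr (Multiplicative.ofAdd 1) ∧
    Φ (sb 0) = SemidirectProduct.inl (FreeGroup.of none) ∧
    ∀ i : Fin (n + 1), Φ (sa i.succ) = SemidirectProduct.inl (FreeGroup.of (some (0, i, false))) ∧
      Φ (sb i.succ) = SemidirectProduct.inl (FreeGroup.of (some (0, i, true))) := by
  obtain ⟨a, ha⟩ : ∃ a : Fin (n + 2) → SFC n, a = Fin.cons
    (SemidirectProduct.inr (Multiplicative.ofAdd 1))
    fun i => SemidirectProduct.inl (FreeGroup.of (some (0, i, false))) := ⟨_, rfl⟩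
  obtain ⟨b, hb⟩ : ∃ b : Fin (n + 2) → SFC n, b = Fin.cons
    (SemidirectProduct.inl (FreeGroup.of none))
    fun i => SemidirectProduct.inl (FreeGroup.of (some (0, i, true))) := ⟨_, rfl⟩
  have ha0 : a 0 = SemidirectProduct.inr (Multiplicative.ofAdd 1) := by rw [ha]; rfl
  have hb0 : b 0 = SemidirectProduct.inl (FreeGroup.of none) := by rw [hb]; rfl
  have has : ∀ i : Fin (n + 1), a i.succ = SemidirectProduct.inl (FreeGroup.of (some (0, i, false))) :=
    fun i => by rw [ha]; rfl
  have hbs : ∀ i : Fin (n + 1), b i.succ = SemidirectProduct.inl (FreeGroup.of (some (0, i, true))) :=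
    fun i => by rw [hb]; rfl
  obtain ⟨Φ, hΦ⟩ := surf_lift (n + 2) a b (by
    rw [srel_succ, ha0, hb0]
    simp only [has, hbs]
    rw [← map_srel (SemidirectProduct.inl : FreeGroup (SX n) →* SFC n), inr_conj, ← map_inv,
      ← map_mul, ← map_mul, tau_none]
    have : (ck n 0)⁻¹ * FreeGroup.of none * (FreeGroup.of none)⁻¹ *
        srel (n + 1) (fun i => FreeGroup.of (some (0, i, false)))
          (fun i => FreeGroup.of (some (0, i, true))) = 1 := by
      rw [mul_inv_cancel_right]
      exact inv_mul_cancel _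
    rw [this, map_one])
  exact ⟨Φ, (hΦ 0).1.trans ha0, (hΦ 0).2.trans hb0, fun i =>
    ⟨(hΦ i.succ).1.trans (has i), (hΦ i.succ).2.trans (hbs i)⟩⟩

/-- the map back -/
def f1 : FreeGroup (SX n) →* Surf (n + 2) := FreeGroup.lift fun x =>
  match x with
  | none => sb 0
  | some (k, i, c) => sa 0 ^ k * PresentedGroup.of (i.succ, c) * (sa 0 ^ k)⁻¹

theorem f1_none : f1 n (FreeGroup.of none) = sb 0 := by
  rw [f1, FreeGroup.lift_apply_of]

theorem f1_some (k : ℤ) (i : Fin (n + 1)) (c : Bool) : f1 n (FreeGroup.of (some (k, i, c))) =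
    sa 0 ^ k * PresentedGroup.of (i.succ, c) * (sa 0 ^ k)⁻¹ := by
  rw [f1, FreeGroup.lift_apply_of]

theorem f1_ck : f1 n (ck n 0) = srel (n + 1) (fun i => sa i.succ) (fun i => sb i.succ) := by
  rw [ck, map_srel]
  simp only [f1_some, zpow_zero, one_mul, inv_one, mul_one]
  rfl

theorem f1_tau (x : FreeGroup (SX n)) : f1 n (tau n x) = sa 0 * f1 n x * (sa 0)⁻¹ := by
  have h1 : (f1 n).comp (tau n) = (MulAut.conj (sa 0)).toMonoidHom.comp (f1 n) := by
    apply FreeGroup.ext_hom
    rintro (_ | ⟨k, i, c⟩)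
    · show f1 n (tau n (FreeGroup.of none)) = sa 0 * f1 n (FreeGroup.of none) * (sa 0)⁻¹
      rw [tau_none, map_mul, map_inv, f1_ck, f1_none]
      have h2 : sa 0 * sb 0 * (sa 0)⁻¹ * (sb 0)⁻¹ *
        srel (n + 1) (fun i => sa i.succ) (fun i => sb i.succ) = (1 : Surf (n + 2)) :=
        (srel_succ (n + 1) (fun i => (sa i : Surf (n + 2))) (fun i => sb i)).symm.trans
          (surf_rel (n + 2))
      rw [mul_eq_one_iff_eq_inv] at h2
      rw [← h2]
      group
    · show f1 n (tau n (FreeGroup.of (some (k, i, c)))) =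
        sa 0 * f1 n (FreeGroup.of (some (k, i, c))) * (sa 0)⁻¹
      rw [tau_some, f1_some, f1_some, zpow_add, zpow_one]
      have : (sa 0 : Surf (n + 2)) ^ k * sa 0 = sa 0 * sa 0 ^ k :=
        (Commute.zpow_self (sa 0 : Surf (n + 2)) k).eq
      rw [this]
      group
  exact DFunLike.congr_fun h1 x

theorem f1_zpow (k : ℤ) : ∀ x : FreeGroup (SX n), f1 n ((tauA n ^ k) x) =
    sa 0 ^ k * f1 n x * (sa 0 ^ k)⁻¹ := by
  induction k using Int.induction_on with
  | zero => intro x; simp
  | succ k ih =>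
    intro x
    rw [zpow_add, zpow_one, MulAut.mul_apply, ih, tauA_apply, f1_tau, zpow_add, zpow_one]
    group
  | pred k ih =>
    intro x
    have h1 : f1 n ((tauA n)⁻¹ x) = (sa 0)⁻¹ * f1 n x * sa 0 := by
      have h2 := f1_tau n ((tauA n)⁻¹ x)
      rw [← tauA_apply] at h2
      have h3 : tauA n ((tauA n)⁻¹ x) = x := MulAut.apply_inv_self _ _ _
      rw [h3] at h2
      rw [h2]
      group
    rw [zpow_sub, zpow_one, MulAut.mul_apply, ih, h1, zpow_sub, zpow_one]
    group

theorem Psi_ex : ∃ Ψ : SFC n →* Surf (n + 2), (∀ x, Ψ (SemidirectProduct.inl x) = f1 n x) ∧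
    Ψ (SemidirectProduct.inr (Multiplicative.ofAdd 1)) = sa 0 := by
  refine ⟨SemidirectProduct.lift (f1 n) (zpowersHom (Surf (n + 2)) (sa 0)) ?_, fun x => ?_, ?_⟩
  · intro z
    ext x
    show f1 n ((tauA n ^ (Multiplicative.toAdd z)) (FreeGroup.of x)) =
      sa 0 ^ (Multiplicative.toAdd z) * f1 n (FreeGroup.of x) * (sa 0 ^ (Multiplicative.toAdd z))⁻¹
    exact f1_zpow n _ _
  · rw [SemidirectProduct.lift_inl]
  · rw [SemidirectProduct.lift_inr, zpowersHom_apply, toAdd_ofAdd, zpow_one]

theorem surf_free : ∃ N : Subgroup (Surf (n + 2)), IsFreeGroup N ∧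
    commutator (Surf (n + 2)) ≤ N ∧ sb 0 ∈ N := by
  obtain ⟨Φ, hΦa, hΦb, hΦ⟩ := Phi_ex n
  obtain ⟨Ψ, hΨ, hΨ'⟩ := Psi_ex n
  have hinj : Function.Injective Φ := by
    have h1 : ∀ x, Ψ (Φ x) = x := by
      intro x
      induction x using surf_ind with
      | ha i =>
        refine Fin.cases ?_ (fun i => ?_) i
        · rw [hΦa, hΨ']
        · rw [(hΦ i).1, hΨ, f1_some, zpow_zero, one_mul, inv_one, mul_one]
          rfl
      | hb i =>
        refine Fin.cases ?_ (fun i => ?_) i
        · rw [hΦb, hΨ, f1_none]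
        · rw [(hΦ i).2, hΨ, f1_some, zpow_zero, one_mul, inv_one, mul_one]
          rfl
      | h1 => rw [map_one, map_one]
      | hm x y hx hy => rw [map_mul, map_mul, hx, hy]
      | hi x hx => rw [map_inv, map_inv, hx]
    exact Function.LeftInverse.injective h1
  obtain ⟨N, hN⟩ : ∃ N : Subgroup (Surf (n + 2)), N = ((SemidirectProduct.rightHom).comp Φ).ker :=
    ⟨_, rfl⟩
  refine ⟨N, ?_, ?_, ?_⟩
  · obtain ⟨P, hP⟩ : ∃ P : Subgroup (FreeGroup (SX n)), P = (N.map Φ).comap SemidirectProduct.inl :=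
      ⟨_, rfl⟩
    have h1 : P.map (SemidirectProduct.inl : FreeGroup (SX n) →* SFC n) = N.map Φ := by
      rw [hP]
      apply Subgroup.map_comap_eq_self
      rintro _ ⟨x, hx, rfl⟩
      rw [SemidirectProduct.range_inl_eq_ker_rightHom]
      rw [hN] at hx
      exact hx
    have e1 : N ≃* N.map Φ := N.equivMapOfInjective Φ hinj
    have e2 : P ≃* P.map (SemidirectProduct.inl : FreeGroup (SX n) →* SFC n) :=
      P.equivMapOfInjective _ SemidirectProduct.inl_injective
    have h2 : IsFreeGroup P := inferInstance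
    exact IsFreeGroup.ofMulEquiv (e2.trans ((MulEquiv.subgroupCongr h1).trans e1.symm))
  · intro x hx
    rw [hN]
    exact hom_comm _ hx
  · rw [hN]
    show SemidirectProduct.rightHom (Φ (sb 0)) = 1
    rw [hΦb, SemidirectProduct.rightHom_inl]

theorem fat_surf : Fat (Surf (n + 2)) := by
  obtain ⟨f, hf⟩ := surf_ab (n + 2)
  have hb : ∀ i : Fin (n + 2), ∀ k : ℕ, 0 < k → (sb i) ^ k ∉ commutator (Surf (n + 2)) :=
    fun i => ne_comm f (hf (i, true))
  have hup := up_of _ (PresentedGroup.closure_range_of _) f hf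
  refine ⟨hup, ⟨sb 0, hb 0⟩, ?_, ?_⟩
  · obtain ⟨D, hD, h0, h1⟩ := surf_der n (e : Surf (n + 2) →* RR (Surf (n + 2)))
    refine ⟨D, hD, _, brk_comm (sa 0) (sb 0), ?_⟩
    have : NoZeroDivisors (RR (Surf (n + 2))) := inferInstance
    rw [D_brk _ D hD, h0, h1, mul_zero, zero_sub, neg_ne_zero]
    refine mul_ne_zero ?_ ?_
    · intro h
      rw [sub_eq_zero] at h
      exact hb 0 1 one_pos (by rw [pow_one]; exact e_eq_one h)
    · intro h
      rw [sub_eq_zero] at h
      exact hb 1 1 one_pos (by rw [pow_one]; exact e_eq_one h)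
  · intro L hLn hL hLc
    obtain ⟨N, hN, hN1, hN2⟩ := surf_free n
    exact small_of N hN1 (sb 0) hN2 (hb 0) L hL hLc

end sf

end Pool.Agent.R684.PS
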