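import Pool.Agent.R684.PS.Good
import Pool.Agent.R684.FP.Rel
import Pool.Agent.R684.PS.SurfFree

/-!
# More closure properties of good kernels
-/

set_option autoImplicit false

namespace Pool.Agent.R684.PS

open Pool.Agent.Y110.FJ
open Pool.Agent.Y462.SS (Closed)
open Pool.Agent.R684.FP
open Pool.Agent.R941.FJ (C_equiv C_le C_cyc mem_sup_normal)

variable {C : ∀ (G : Type) [Group G], Prop}

theorem good_equiv {N N' : Type} [Group N] [Group N'] (f : N ≃* N') (h : Good C N) : Good C N' :=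
  fun E _ M _ ⟨g⟩ hQ => h E M ⟨g.trans f.symm⟩ hQ

/-- extensions by finite groups -/
theorem good_finite (hC : ClosedE C) {N : Type} [Group N] (hN : Finite N) : Good C N := by
  intro E _ M hM ⟨f⟩ hQ
  have hfin : Finite M := Finite.of_equiv N f.symm.toEquiv
  refine Pool.Agent.Y529.FJ.t_ext C hC E M (Pool.Agent.Y430.SS.of_finite hC.base _ hfin) hQ
    fun g _ => fin_cyc hC hfin g fun x => ⟨fun hx => hM.conj_mem x hx g, fun hx => ?_⟩
  have := hM.conj_mem _ hx g⁻¹
  have h2 : g⁻¹ * (g * x * g⁻¹) * g⁻¹⁻¹ = x := by group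
  rwa [h2] at this

/-- the mapping tori of `B` are in the class -/
def MtC (C : ∀ (G : Type) [Group G], Prop) (B : Type) [Group B] : Prop :=
  ∀ α : MulAut B, C (B ⋊[zpowersHom (MulAut B) α] Multiplicative ℤ)

theorem good_mt (hC : ClosedE C) {B : Type} [Group B] (h : MtC C B) : Good C B := by
  intro E _ M hM ⟨f⟩ hQ
  have hcyc : ∀ g : E, C ↥(M ⊔ Subgroup.zpowers g) := by
    intro g
    obtain ⟨c, hc⟩ : ∃ c : MulAut M, c = MulAut.conjNormal g := ⟨_, rfl⟩
    obtain ⟨α, hα⟩ : ∃ α : MulAut B, α = (f.symm.trans c).trans f := ⟨_, rfl⟩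
    refine cyc_real hC M g (fun x => ⟨fun hx => hM.conj_mem x hx g, fun hx => ?_⟩)
      ((SemidirectProduct.inl (φ := zpowersHom (MulAut B) α)).comp f.toMonoidHom) ?_
      (SemidirectProduct.inr (Multiplicative.ofAdd 1)) ?_ (h α)
    · have := hM.conj_mem _ hx g⁻¹
      have h2 : g⁻¹ * (g * x * g⁻¹) * g⁻¹⁻¹ = x := by group
      rwa [h2] at this
    · exact SemidirectProduct.inl_injective.comp f.injective
    · intro x y hxy
      have h1 : y = c x := by
        apply Subtype.ext
        rw [hc, MulAut.conjNormal_apply, hxy]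
      show SemidirectProduct.inl (f y) = SemidirectProduct.inr (Multiplicative.ofAdd 1) *
        SemidirectProduct.inl (f x) * (SemidirectProduct.inr (Multiplicative.ofAdd 1))⁻¹
      rw [← map_inv, ← SemidirectProduct.inl_aut]
      congr 1
      rw [zpowersHom_apply, toAdd_ofAdd, zpow_one, hα, h1]
      show f (c x) = f (c (f.symm (f x)))
      rw [f.symm_apply_apply]
  exact Pool.Agent.Y529.FJ.t_ext C hC E M (C_le hC.base le_sup_left (hcyc 1)) hQ fun g _ => hcyc g

/-- a finitely generated group has finitely many subgroups of a given index -/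
theorem fin_sub {G : Type} [Group G] (hG : Group.FG G) (n : ℕ) (hn : n ≠ 0) :
    {H : Subgroup G | H.index = n}.Finite := by
  obtain ⟨S, hS⟩ := Group.fg_def.mp hG
  have h1 : Finite (G →* Equiv.Perm (Fin n)) := by
    refine Finite.of_injective (fun f : G →* Equiv.Perm (Fin n) => fun s : S => f s) ?_
    intro f f' h
    refine MonoidHom.eq_of_eqOn_dense hS fun s hs => ?_
    exact congrFun h ⟨s, hs⟩
  refine (Set.finite_range (fun p : (G →* Equiv.Perm (Fin n)) × Fin n =>
    (MulAction.stabilizer (Equiv.Perm (Fin n)) p.2).comap p.1)).subset ?_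
  intro H hH
  have hH' : H.index = n := hH
  have h2 : Nat.card (G ⧸ H) = n := hH'
  have h3 : Finite (G ⧸ H) := Nat.finite_of_card_ne_zero (by rw [h2]; exact hn)
  obtain ⟨ε⟩ : Nonempty ((G ⧸ H) ≃ Fin n) := ⟨Finite.equivFinOfCardEq h2⟩
  refine ⟨(ε.permCongrHom.toMonoidHom.comp (MulAction.toPermHom G (G ⧸ H)),
    ε (QuotientGroup.mk 1)), ?_⟩
  ext g
  constructor
  · intro hg
    have h4 : ε (g • ε.symm (ε (QuotientGroup.mk 1))) = ε (QuotientGroup.mk 1) := hg
    rw [ε.symm_apply_apply, ε.apply_eq_iff_eq] at h4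
    have h5 : (QuotientGroup.mk (g * 1) : G ⧸ H) = QuotientGroup.mk 1 := h4
    rw [mul_one, eq_comm, QuotientGroup.eq, inv_one, one_mul] at h5
    exact h5
  · intro hg
    show ε (g • ε.symm (ε (QuotientGroup.mk 1))) = ε (QuotientGroup.mk 1)
    rw [ε.symm_apply_apply, ε.apply_eq_iff_eq]
    show (QuotientGroup.mk (g * 1) : G ⧸ H) = QuotientGroup.mk 1
    rw [mul_one, eq_comm, QuotientGroup.eq, inv_one, one_mul]
    exact hg

/-- overgroups of finite index -/
theorem good_fin (hC : ClosedE C) {G : Type} [Group G] (hG : Group.FG G) (K : Subgroup G)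
    (hK : K.FiniteIndex) (hgK : Good C K) : Good C G := by
  intro E _ M hMn ⟨f⟩ hQ
  have hM : Group.FG M := by
    have := hG
    exact Group.fg_of_surjective (f := f.symm.toMonoidHom) f.symm.surjective
  obtain ⟨K0, hK0⟩ : ∃ K0 : Subgroup M, K0 = K.comap f.toMonoidHom := ⟨_, rfl⟩
  have hidx : K0.index = K.index := by
    rw [hK0]
    exact Subgroup.index_comap_of_surjective K f.surjective
  obtain ⟨K', hK'⟩ : ∃ K' : Subgroup E, K' = K0.map M.subtype := ⟨_, rfl⟩
  have hK'M : K' ≤ M := by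
    rw [hK']
    rintro _ ⟨m, _, rfl⟩
    exact m.2
  obtain ⟨E1, hfi, hE1⟩ := orb_stab K' _ ((fin_sub hM K.index hK.index_ne_zero).image
    fun L => L.map M.subtype) fun x => by
    refine ⟨K0.map (MulAut.conjNormal x).toMonoidHom, ?_, ?_⟩
    · show (K0.map (MulAut.conjNormal x).toMonoidHom).index = K.index
      exact (Subgroup.index_map_equiv K0 (MulAut.conjNormal x : M ≃* M)).trans hidx
    · show (K0.map (MulAut.conjNormal x).toMonoidHom).map M.subtype = _
      rw [hK', Subgroup.map_map, Subgroup.map_map]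
      congr 1
  have hKE : K' ≤ E1 := by
    intro m hm
    rw [hE1]
    exact map_conj_eq (P := K') (fun n hn k hk => mul_mem (mul_mem hn hk) (inv_mem hn)) hm
  refine hC.base.finiteIndex E E1 hfi ?_
  have hn : (K'.subgroupOf E1).Normal := by
    refine ⟨fun k hk x => ?_⟩
    have h1 := (hE1 x).mp x.2
    show ((x : E) * (k : E) * (x : E)⁻¹) ∈ K'
    rw [← h1]
    exact ⟨k, hk, rfl⟩
  have hiso : Nonempty (K'.subgroupOf E1 ≃* K) := by
    refine ⟨(Subgroup.subgroupOfEquivOfLe hKE).trans ?_⟩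
    refine (MulEquiv.subgroupCongr hK').trans ?_
    refine (K0.equivMapOfInjective M.subtype M.subtype_injective).symm.trans ?_
    refine (f.subgroupMap K0).trans (MulEquiv.subgroupCongr ?_)
    rw [hK0]
    exact Subgroup.map_comap_eq_self_of_surjective f.surjective K
  refine hgK E1 (K'.subgroupOf E1) hiso ?_
  have hle : K'.subgroupOf E1 ≤ M.subgroupOf E1 := fun x hx => hK'M hx
  have hfinq : Finite ((M.subgroupOf E1).map (QuotientGroup.mk' (K'.subgroupOf E1))) := by
    have h0 : Finite (M ⧸ K0) := Nat.finite_of_card_ne_zero (by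
      have : Nat.card (M ⧸ K0) = K.index := hidx
      rw [this]
      exact hK.index_ne_zero)
    have h1 : ∀ y : (M.subgroupOf E1).map (QuotientGroup.mk' (K'.subgroupOf E1)),
        ∃ (m : M) (h : (m : E) ∈ E1), (QuotientGroup.mk ⟨(m : E), h⟩ : E1 ⧸ K'.subgroupOf E1) = y := by
      rintro ⟨_, ⟨m, hm, rfl⟩⟩
      exact ⟨⟨(m : E), hm⟩, m.2, rfl⟩
    choose r hr hr' using h1
    refine Finite.of_injective (fun y => (QuotientGroup.mk (r y) : M ⧸ K0)) ?_
    intro y y' hy
    have h2 : (r y)⁻¹ * r y' ∈ K0 := QuotientGroup.eq.mp hy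
    apply Subtype.ext
    rw [← hr' y, ← hr' y', QuotientGroup.eq]
    show ((r y : E))⁻¹ * (r y' : E) ∈ K'
    rw [hK']
    exact ⟨_, h2, rfl⟩
  refine good_finite hC hfinq _ ((M.subgroupOf E1).map (QuotientGroup.mk' (K'.subgroupOf E1)))
    ⟨MulEquiv.refl _⟩ ?_
  exact C_equiv hC.base (QuotientGroup.quotientQuotientEquivQuotient _ _ hle)
    (C_sub_quot hC M hQ E1)

end Pool.Agent.R684.PS
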