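import Pool.Agent.R684.PS.Alex

/-!
# The kernel of the map of group rings
-/

set_option autoImplicit false

namespace Pool.Agent.R684.PS

variable {G B : Type} [Group G] [Group B] (π : G →* B)

/-- the map of group rings -/
noncomputable def ph : RR G →ₐ[ℚ] RR B := MonoidAlgebra.mapDomainAlgHom ℚ ℚ (Abelianization.map π)

theorem ph_e (g : G) : ph π (e g) = e (π g) := by
  show MonoidAlgebra.mapDomain _ (MonoidAlgebra.single _ 1) = MonoidAlgebra.single _ 1
  rw [MonoidAlgebra.mapDomain_single]
  rfl

/-- the ideal generated by the `x - 1`, `x` in a subgroup -/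
noncomputable def IK (K : Subgroup G) : Ideal (RR G) := Ideal.span ((fun x => e x - 1) '' (K : Set G))

theorem IK_mem {K : Subgroup G} {x : G} (hx : x ∈ K) : e x - 1 ∈ IK K :=
  Ideal.subset_span ⟨x, hx, rfl⟩

theorem single_sub_mem (hπ : Function.Surjective π) {a a' : Abelianization G}
    (h : Abelianization.map π a = Abelianization.map π a') (c : ℚ) :
    (MonoidAlgebra.single a c : RR G) - MonoidAlgebra.single a' c ∈ IK π.ker := by
  obtain ⟨g, rfl⟩ : ∃ g, Abelianization.of g = a := QuotientGroup.mk_surjective a
  obtain ⟨g', rfl⟩ : ∃ g, Abelianization.of g = a' := QuotientGroup.mk_surjective a'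
  have h1 : Abelianization.of (π g) = Abelianization.of (π g') := h
  have h2 : (π g)⁻¹ * π g' ∈ commutator B := QuotientGroup.eq.mp h1
  have h3 : commutator B = (commutator G).map π := by
    rw [commutator_def, commutator_def, Subgroup.map_commutator, Subgroup.map_top_of_surjective π hπ]
  rw [h3] at h2
  obtain ⟨x, hx, hx2⟩ := h2
  have h4 : g⁻¹ * g' * x⁻¹ ∈ π.ker := by
    rw [MonoidHom.mem_ker, map_mul, map_mul, map_inv, map_inv, hx2]
    group
  have h5 : g' = g * (g⁻¹ * g' * x⁻¹) * x := by group
  have h6 : e g' = e g * e (g⁻¹ * g' * x⁻¹) := by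
    rw [h5, map_mul, map_mul, e_comm hx, mul_one]
    congr 2
    group
  have h7 : (MonoidAlgebra.single (Abelianization.of g) c : RR G) -
      MonoidAlgebra.single (Abelianization.of g') c =
      (-(c • e g)) * (e (g⁻¹ * g' * x⁻¹) - 1) := by
    have h8 : ∀ y : G, (MonoidAlgebra.single (Abelianization.of y) c : RR G) =
        c • e y := by
      intro y
      show _ = c • (MonoidAlgebra.single (Abelianization.of y) (1 : ℚ) : RR G)
      rw [MonoidAlgebra.smul_single, smul_eq_mul, mul_one]
    rw [h8, h8, h6, neg_mul, mul_sub, mul_one, smul_mul_assoc]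
    abel
  rw [h7]
  exact Ideal.mul_mem_left _ _ (IK_mem h4)

theorem ker_ph (hπ : Function.Surjective π) {r : RR G} (hr : ph π r = 0) : r ∈ IK π.ker := by
  have hs : Function.Surjective (Abelianization.map π) := by
    intro b
    obtain ⟨b, rfl⟩ := QuotientGroup.mk_surjective b
    obtain ⟨g, rfl⟩ := hπ b
    exact ⟨Abelianization.of g, rfl⟩
  obtain ⟨s, hs'⟩ := hs.hasRightInverse
  have key : ∀ r : RR G, r - MonoidAlgebra.mapDomain s (ph π r) ∈ IK π.ker := by
    intro r
    induction r using MonoidAlgebra.induction_linear with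
    | zero =>
      rw [map_zero, MonoidAlgebra.mapDomain_zero, sub_zero]
      exact zero_mem _
    | add x y hx hy =>
      rw [map_add, MonoidAlgebra.mapDomain_add, add_sub_add_comm]
      exact add_mem hx hy
    | single a c =>
      have h1 : ph π (MonoidAlgebra.single a c) =
          MonoidAlgebra.single (Abelianization.map π a) c := by
        show MonoidAlgebra.mapDomain _ (MonoidAlgebra.single _ _) = _
        rw [MonoidAlgebra.mapDomain_single]
      rw [h1, MonoidAlgebra.mapDomain_single]
      exact single_sub_mem π hπ (hs' _).symm c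
  have h1 := key r
  rwa [hr, MonoidAlgebra.mapDomain_zero, sub_zero] at h1

theorem IK_le : IK π.ker ≤ RingHom.ker (ph π) := by
  rw [IK, Ideal.span_le]
  rintro _ ⟨x, hx, rfl⟩
  show ph π (e x - 1) = 0
  have hx' : π x = 1 := hx
  rw [map_sub, ph_e, hx', map_one, map_one, sub_self]

theorem IK_eq (hπ : Function.Surjective π) : IK π.ker = RingHom.ker (ph π) :=
  le_antisymm (IK_le π) fun _ hr => ker_ph π hπ hr

end Pool.Agent.R684.PS
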