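import Pool.Agent.R684.PS.Ker
import Pool.Agent.R684.PS.Fd

/-!
# The part of the Alexander module coming from a finitely generated normal subgroup
-/

set_option autoImplicit false

namespace Pool.Agent.R684.PS

variable {G : Type} [Group G]

/-- the submodule generated by the `d y`, `y` in `K` and in the commutator subgroup -/
noncomputable def NK (K : Subgroup G) : Submodule (RR G) (AM G) :=
  Submodule.span _ (d '' ((K : Set G) ∩ (commutator G : Set G)))

theorem NK_mem {K : Subgroup G} {y : G} (h1 : y ∈ K) (h2 : y ∈ commutator G) : d y ∈ NK K :=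
  Submodule.subset_span ⟨y, ⟨h1, h2⟩, rfl⟩

theorem brk_smul {K : Subgroup G} [hK : K.Normal] (F : AM G →ₗ[RR G] RR G)
    (hF : ∀ g, F (d g) = e g - 1) {x : G} (hx : x ∈ K) {m : AM G} (hm : F m = 0) :
    (e x - 1) • m ∈ NK K := by
  have key : ∀ v : AM G, (e x - 1) • v - F v • d x ∈ NK K := by
    intro v
    have hv : v ∈ Submodule.span (RR G) (Set.range (d : G → AM G)) := by rw [span_d]; trivial
    induction hv using Submodule.span_induction with
    | mem v hv =>
      obtain ⟨g, rfl⟩ := hv
      rw [hF, d_brk]
      refine NK_mem ?_ (Subgroup.commutator_mem_commutator (Subgroup.mem_top x)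
        (Subgroup.mem_top g))
      have : x * g * x⁻¹ * g⁻¹ = x * (g * x⁻¹ * g⁻¹) := by group
      rw [this]
      exact mul_mem hx (hK.conj_mem _ (inv_mem hx) g)
    | zero => rw [smul_zero, map_zero, zero_smul, sub_zero]; exact zero_mem _
    | add u v _ _ hu hv =>
      rw [smul_add, map_add, add_smul, add_sub_add_comm]
      exact add_mem hu hv
    | smul r u _ hu =>
      have h1 : (e x - 1) • r • u - F (r • u) • d x = r • ((e x - 1) • u - F u • d x) := by
        rw [map_smul, smul_eq_mul, smul_sub, smul_smul, smul_smul, smul_smul,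
          mul_comm (e x - 1) r]
      rw [h1]
      exact Submodule.smul_mem _ _ hu
  have h1 := key m
  rwa [hm, zero_smul, sub_zero] at h1

/-- the quotient of `NK K` by the ideal of `K` -/
abbrev VK (K : Subgroup G) := (NK K) ⧸ (IK K • (⊤ : Submodule (RR G) (NK K)))

theorem vk_finite {K : Subgroup G} [hK : K.Normal] (hfg : K.FG) : Module.Finite ℚ (VK K) := by
  obtain ⟨T, hT⟩ : ∃ T : Subgroup K, T = (commutator G).subgroupOf K := ⟨_, rfl⟩
  have hmem : ∀ t : T, (t : G) ∈ commutator G := by
    intro t
    have h : ∀ x : K, x ∈ T → (x : G) ∈ commutator G := by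
      intro x hx
      rw [hT] at hx
      exact hx
    exact h _ t.2
  have hTn : T.Normal := by rw [hT]; infer_instance
  obtain ⟨θ, hθ⟩ : ∃ θ : T → VK K, ∀ t, θ t =
      Submodule.Quotient.mk ⟨d (t : G), NK_mem t.1.2 (hmem t)⟩ := ⟨_, fun _ => rfl⟩
  obtain ⟨W, hW, hWt⟩ := fd_abs T θ (Group.fg_iff_subgroup_fg K |>.mpr hfg) (by
      rw [hT, commutator_def, Subgroup.commutator_le]
      intro a _ b _
      exact Subgroup.commutator_mem_commutator (Subgroup.mem_top (a : G)) (Subgroup.mem_top _))
    (fun t t' => by
      rw [hθ, hθ, hθ, ← Submodule.Quotient.mk_add]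
      congr 1
      apply Subtype.ext
      show d ((t : G) * (t' : G)) = d (t : G) + d (t' : G)
      rw [d_mul, e_comm (hmem t), one_smul])
    (fun x t t' h => by
      rw [hθ, hθ, Submodule.Quotient.eq]
      have h1 : (⟨d ((t' : K) : G), NK_mem t'.1.2 (hmem t')⟩ - ⟨d ((t : K) : G), NK_mem t.1.2 (hmem t)⟩ :
          NK K) = (e (x : G) - 1) • (⟨d ((t : K) : G), NK_mem t.1.2 (hmem t)⟩ : NK K) := by
        apply Subtype.ext
        show d ((t' : K) : G) - d ((t : K) : G) = (e (x : G) - 1) • d ((t : K) : G)
        rw [h]
        show d ((x : G) * ((t : K) : G) * (x : G)⁻¹) - _ = _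
        rw [d_conj (hmem t), sub_smul, one_smul]
      rw [h1]
      exact Submodule.smul_mem_smul (IK_mem x.2) trivial)
  have htop : W = ⊤ := by
    rw [eq_top_iff]
    rintro v -
    induction v using Submodule.Quotient.induction_on with
    | H v =>
      obtain ⟨v, hv⟩ := v
      have key : ∃ h : v ∈ NK K, (Submodule.Quotient.mk ⟨v, h⟩ : VK K) ∈ W := by
        have hv' : v ∈ Submodule.span (RR G) (d '' ((K : Set G) ∩ (commutator G : Set G))) := hv
        clear hv
        -- elements of the form `a • d y`
        have hbase : ∀ (r : RR G) (y : G) (h1 : y ∈ K) (h2 : y ∈ commutator G),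
            ∃ h : r • d y ∈ NK K, (Submodule.Quotient.mk ⟨r • d y, h⟩ : VK K) ∈ W := by
          intro r y h1 h2
          induction r using MonoidAlgebra.induction_linear with
          | zero =>
            refine ⟨Submodule.smul_mem _ _ (NK_mem h1 h2), ?_⟩
            have : (⟨(0 : RR G) • d y, Submodule.smul_mem _ _ (NK_mem h1 h2)⟩ : NK K) = 0 :=
              Subtype.ext (zero_smul _ _)
            rw [this]
            exact zero_mem _
          | add r s hr hs =>
            obtain ⟨hr1, hr2⟩ := hr
            obtain ⟨hs1, hs2⟩ := hs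
            refine ⟨Submodule.smul_mem _ _ (NK_mem h1 h2), ?_⟩
            have : (⟨(r + s) • d y, Submodule.smul_mem _ _ (NK_mem h1 h2)⟩ : NK K) =
                ⟨r • d y, hr1⟩ + ⟨s • d y, hs1⟩ := Subtype.ext (add_smul _ _ _)
            rw [this]
            exact add_mem hr2 hs2
          | single a c =>
            obtain ⟨g, rfl⟩ : ∃ g, Abelianization.of g = a := QuotientGroup.mk_surjective a
            refine ⟨Submodule.smul_mem _ _ (NK_mem h1 h2), ?_⟩
            have hg1 : g * y * g⁻¹ ∈ K := hK.conj_mem _ h1 g
            have hg2 : g * y * g⁻¹ ∈ commutator G := Subgroup.Normal.conj_mem inferInstance _ h2 g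
            have : (⟨(MonoidAlgebra.single (Abelianization.of g) c : RR G) • d y,
                Submodule.smul_mem _ _ (NK_mem h1 h2)⟩ : NK K) =
                c • ⟨d (g * y * g⁻¹), NK_mem hg1 hg2⟩ := by
              apply Subtype.ext
              show (MonoidAlgebra.single (Abelianization.of g) c : RR G) • d y =
                c • d (g * y * g⁻¹)
              have h8 : (MonoidAlgebra.single (Abelianization.of g) c : RR G) = c • e g := by
                show _ = c • (MonoidAlgebra.single (Abelianization.of g) (1 : ℚ) : RR G)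
                rw [MonoidAlgebra.smul_single, smul_eq_mul, mul_one]
              rw [h8, d_conj h2, smul_assoc]
            rw [this]
            show c • (Submodule.Quotient.mk ⟨d (g * y * g⁻¹), NK_mem hg1 hg2⟩ : VK K) ∈ W
            refine W.smul_mem c ?_
            have h9 : (⟨g * y * g⁻¹, hg1⟩ : K) ∈ T := by rw [hT]; exact hg2
            have h10 := hWt ⟨⟨g * y * g⁻¹, hg1⟩, h9⟩
            rwa [hθ] at h10
        induction hv' using Submodule.span_induction with
        | mem v hv =>
          obtain ⟨y, ⟨h1, h2⟩, rfl⟩ := hv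
          have := hbase 1 y h1 h2
          rwa [one_smul] at this
        | zero => exact ⟨zero_mem _, zero_mem W⟩
        | add u v _ _ hu hv =>
          obtain ⟨hu1, hu2⟩ := hu
          obtain ⟨hv1, hv2⟩ := hv
          exact ⟨add_mem hu1 hv1, add_mem hu2 hv2⟩
        | smul r u hu _ => 
          clear * - hbase hu
          induction hu using Submodule.span_induction generalizing r with
          | mem v hv =>
            obtain ⟨y, ⟨h1, h2⟩, rfl⟩ := hv
            exact hbase r y h1 h2
          | zero => 
            rw [smul_zero]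
            exact ⟨zero_mem _, zero_mem W⟩
          | add u v _ _ hu hv =>
            obtain ⟨hu1, hu2⟩ := hu r
            obtain ⟨hv1, hv2⟩ := hv r
            rw [smul_add]
            exact ⟨add_mem hu1 hv1, add_mem hu2 hv2⟩
          | smul s u _ hu =>
            have := hu (r * s)
            rwa [mul_smul] at this
      exact key.2
  exact ⟨by rw [← htop]; exact hW⟩

end Pool.Agent.R684.PS
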