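import Pool.Agent.R684.PS.Der

/-!
# Finitely generated normal subgroups inside the commutator subgroup
-/

set_option autoImplicit false

namespace Pool.Agent.R684.PS

theorem e_eq_one {B : Type} [Group B] {y : B} (h : (e y : RR B) = 1) : y ∈ commutator B := by
  have h4 : (MonoidAlgebra.single (Abelianization.of y) (1 : ℚ) : RR B) =
      MonoidAlgebra.single 1 1 := h
  have h5 : Abelianization.of y = 1 := by
    have h6 := congrArg MonoidAlgebra.coeff h4
    rw [MonoidAlgebra.coeff_single, MonoidAlgebra.coeff_single] at h6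
    exact (Finsupp.single_left_injective one_ne_zero h6)
  exact (QuotientGroup.eq_one_iff _).mp h5

/-- the infinite cyclic group -/
abbrev Zm := Multiplicative ℤ

theorem zm_comm {y : Zm} (h : y ∈ commutator Zm) : y = 1 := by
  have h1 : commutator Zm ≤ ⊥ := by
    rw [commutator_def, Subgroup.commutator_le]
    intro a _ b _
    show a * b * a⁻¹ * b⁻¹ = 1
    rw [mul_comm a b]
    group
  exact h1 h

theorem zm_pow {y : Zm} (hy : y ≠ 1) {n : ℤ} (h : y ^ n = 1) : n = 0 := by
  have h1 : n * Multiplicative.toAdd y = 0 := by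
    have := congrArg Multiplicative.toAdd h
    rwa [toAdd_zpow, toAdd_one, smul_eq_mul] at this
  rcases mul_eq_zero.mp h1 with h2 | h2
  · exact h2
  · exact absurd (Multiplicative.toAdd.injective h2) hy

theorem zm_up : UniqueProds (Abelianization Zm) := by
  have h1 : Function.Injective (Abelianization.equivOfComm (H := Zm)).symm :=
    MulEquiv.injective _
  exact UniqueProds.of_injective_mulHom (Abelianization.equivOfComm (H := Zm)).symm.toMulHom h1
    inferInstance

theorem D_zero {X : Type} (χ : FreeGroup X →* Zm) (t : FreeGroup X) (ht : χ t ≠ 1)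
    (hL : χ.ker.FG) (D : FreeGroup X → RR Zm)
    (hD : ∀ x y, D (x * y) = D x + (e.comp χ) x * D y) : ∀ l ∈ χ.ker, D l = 0 := by
  classical
  have hup := zm_up
  have : NoZeroDivisors (RR Zm) := inferInstance
  obtain ⟨S, hS⟩ := hL
  obtain ⟨V, hV⟩ : ∃ V : Submodule ℚ (RR Zm), V = Submodule.span ℚ ((S.image D : Finset _) : Set _) :=
    ⟨_, rfl⟩
  have hc : ∀ l ∈ χ.ker, (e.comp χ) l = 1 := by
    intro l hl
    have : χ l = 1 := hl
    show e (χ l) = 1
    rw [this, map_one]
  have h1 : ∀ l ∈ χ.ker, D l ∈ V := by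
    intro l hl
    rw [← hS] at hl
    induction hl using Subgroup.closure_induction with
    | mem x hx =>
      rw [hV]
      exact Submodule.subset_span (Finset.mem_coe.mpr (Finset.mem_image_of_mem _ hx))
    | one => rw [D_one _ D hD]; exact zero_mem _
    | mul x y hx _ hx' hy' =>
      rw [hS] at hx
      rw [hD, hc x hx, one_mul]
      exact add_mem hx' hy'
    | inv x hx hx' =>
      rw [hS] at hx
      rw [D_inv _ D hD, hc _ (inv_mem hx), one_mul]
      exact neg_mem hx'
  have hTV : ∀ v ∈ V, (e (χ t) : RR Zm) * v ∈ V := by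
    intro v hv
    rw [hV] at hv
    induction hv using Submodule.span_induction with
    | mem v hv =>
      obtain ⟨s, hs, rfl⟩ := Finset.mem_image.mp (Finset.mem_coe.mp hv)
      have hs' : s ∈ χ.ker := by rw [← hS]; exact Subgroup.subset_closure hs
      have h2 := D_conj (e.comp χ) D hD (g := t) (hc s hs')
      have h3 : (e (χ t) : RR Zm) * D s = D (t * s * t⁻¹) := h2.symm
      rw [h3]
      exact h1 _ (Subgroup.Normal.conj_mem inferInstance _ hs' t)
    | zero => rw [mul_zero]; exact zero_mem _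
    | add u v _ _ hu hv => rw [mul_add]; exact add_mem hu hv
    | smul a v _ hv => rw [mul_smul_comm]; exact Submodule.smul_mem _ _ hv
  intro l hl
  refine fd_zero (T := e (χ t)) (fun p hp => aeval_ne (B := Zm) (t := χ t) ?_ hp) V ?_ hTV _
    (h1 l hl)
  · intro n hn h
    have h2 := zm_comm h
    have h3 := zm_pow ht (n := n) (by rw [zpow_natCast]; exact h2)
    omega
  · rw [hV]
    exact ⟨_, rfl⟩

theorem free_small' {X : Type} (χ : FreeGroup X →* Zm) (t : FreeGroup X) (ht : χ t ≠ 1)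
    (hL : χ.ker.FG) : χ.ker = ⊥ := by
  classical
  have key : ∀ i j : X, i ≠ j → χ (FreeGroup.of i) = 1 := by
    intro i j hij
    obtain ⟨D, hD, hw⟩ := der_free ((e : Zm →* RR Zm).comp χ) (Pi.single j 1 : X → RR Zm)
    have h1 := D_zero χ t ht hL D hD
      (FreeGroup.of i * FreeGroup.of j * (FreeGroup.of i)⁻¹ * (FreeGroup.of j)⁻¹) (by
        rw [MonoidHom.mem_ker, map_mul, map_mul, map_mul, map_inv, map_inv,
          mul_comm (χ (FreeGroup.of i)) (χ (FreeGroup.of j))]
        group)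
    rw [D_brk _ D hD, hw, hw, Pi.single_eq_same, Pi.single_eq_of_ne hij, mul_zero, sub_zero,
      mul_one, sub_eq_zero] at h1
    exact zm_comm (e_eq_one h1)
  obtain ⟨i, hi⟩ : ∃ i, χ (FreeGroup.of i) ≠ 1 := by
    by_contra hcon
    push Not at hcon
    have : χ = 1 := by
      apply FreeGroup.ext_hom
      intro a
      rw [hcon a]
      rfl
    rw [this] at ht
    exact ht rfl
  have hone : ∀ j, j = i := by
    intro j
    by_contra hj
    exact hi (key i j (fun h => hj h.symm))
  have hcyc : ∀ x : FreeGroup X, ∃ n : ℤ, x = FreeGroup.of i ^ n := by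
    intro x
    induction x using FreeGroup.induction_on with
    | C1 => exact ⟨0, (zpow_zero _).symm⟩
    | of a => exact ⟨1, by rw [hone a, zpow_one]⟩
    | inv_of a _ => exact ⟨-1, by rw [hone a, zpow_neg, zpow_one]⟩
    | mul x y hx hy =>
      obtain ⟨n, rfl⟩ := hx
      obtain ⟨m, rfl⟩ := hy
      exact ⟨n + m, (zpow_add _ n m).symm⟩
  rw [eq_bot_iff]
  intro x hx
  obtain ⟨n, rfl⟩ := hcyc x
  have h1 : χ (FreeGroup.of i) ^ n = 1 := by rw [← map_zpow]; exact hx
  rw [zm_pow hi h1, zpow_zero]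
  exact one_mem _

theorem free_small {H : Type} [Group H] [IsFreeGroup H] (χ : H →* Zm) (t : H) (ht : χ t ≠ 1)
    (hL : χ.ker.FG) : χ.ker = ⊥ := by
  obtain ⟨X, ⟨f⟩⟩ : ∃ X : Type, Nonempty (H ≃* FreeGroup X) :=
    ⟨IsFreeGroup.Generators H, ⟨IsFreeGroup.toFreeGroup H⟩⟩
  have h1 : (χ.comp f.symm.toMonoidHom).ker = χ.ker.map f.toMonoidHom := by
    ext x
    constructor
    · intro hx
      exact ⟨f.symm x, hx, f.apply_symm_apply x⟩
    · rintro ⟨y, hy, rfl⟩
      show χ (f.symm (f y)) = 1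
      rw [f.symm_apply_apply]
      exact hy
  have h2 := free_small' (χ.comp f.symm.toMonoidHom) (f t) (by
    show χ (f.symm (f t)) ≠ 1
    rwa [f.symm_apply_apply]) (by rw [h1]; exact fg_map hL _)
  rw [h1, Subgroup.map_eq_bot_iff_of_injective _ f.injective] at h2
  exact h2

theorem small_of {B : Type} [Group B] (N : Subgroup B) [IsFreeGroup N] (hN : commutator B ≤ N)
    (t : B) (htN : t ∈ N) (ht : ∀ n : ℕ, 0 < n → t ^ n ∉ commutator B) (L : Subgroup B)
    [hLn : L.Normal] (hL : L.FG) (hLc : L ≤ commutator B) : L = ⊥ := by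
  have htz : ∀ n : ℤ, t ^ n ∈ commutator B → n = 0 := by
    intro n hn
    by_contra h0
    refine ht n.natAbs (Int.natAbs_pos.mpr h0) ?_
    rcases Int.natAbs_eq n with h | h
    · rw [h, zpow_natCast] at hn
      exact hn
    · rw [h, zpow_neg, zpow_natCast] at hn
      exact (inv_mem_iff).mp hn
  obtain ⟨H, hH⟩ : ∃ H : Subgroup B, H = L ⊔ Subgroup.zpowers t := ⟨_, rfl⟩
  have hLH : L ≤ H := by rw [hH]; exact le_sup_left
  have htH : t ∈ H := by rw [hH]; exact Subgroup.mem_sup_right (Subgroup.mem_zpowers t)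
  have hHN : H ≤ N := by
    rw [hH]
    exact sup_le (hLc.trans hN) ((Subgroup.zpowers_le).mpr htN)
  have hfree : IsFreeGroup H := by
    have : IsFreeGroup (H.subgroupOf N) := inferInstance
    exact IsFreeGroup.ofMulEquiv (Subgroup.subgroupOfEquivOfLe hHN)
  have hn' : (L.subgroupOf H).Normal := inferInstance
  obtain ⟨ζ, hζ⟩ : ∃ ζ : Zm →* H ⧸ L.subgroupOf H, ∀ n : Zm, ζ n =
      QuotientGroup.mk (⟨t, htH⟩ ^ (Multiplicative.toAdd n) : H) :=
    ⟨zpowersHom (H ⧸ L.subgroupOf H) (QuotientGroup.mk ⟨t, htH⟩), fun n => rfl⟩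
  have hbij : Function.Bijective ζ := by
    constructor
    · rw [injective_iff_map_eq_one]
      intro n hn
      rw [hζ] at hn
      have h1 : (⟨t, htH⟩ ^ (Multiplicative.toAdd n) : H) ∈ L.subgroupOf H :=
        (QuotientGroup.eq_one_iff _).mp hn
      have h2 : t ^ (Multiplicative.toAdd n) ∈ L := h1
      exact Multiplicative.toAdd.injective (htz _ (hLc h2))
    · intro x
      obtain ⟨⟨h, hh⟩, rfl⟩ := QuotientGroup.mk_surjective x
      have hh' := hh
      rw [hH] at hh'
      obtain ⟨l, hl, z, hz, hlz⟩ := Subgroup.mem_sup_of_normal_left.mp hh'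
      obtain ⟨n, rfl⟩ := hz
      refine ⟨Multiplicative.ofAdd n, ?_⟩
      rw [hζ, QuotientGroup.eq]
      show (t ^ n)⁻¹ * h ∈ L
      rw [← hlz]
      have : (t ^ n)⁻¹ * (l * t ^ n) = (t ^ n)⁻¹ * l * ((t ^ n)⁻¹)⁻¹ := by group
      show (t ^ n)⁻¹ * (l * t ^ n) ∈ L
      rw [this]
      exact hLn.conj_mem _ hl _
  obtain ⟨ε, hε⟩ : ∃ ε : Zm ≃* (H ⧸ L.subgroupOf H), ∀ n, ε n = ζ n :=
    ⟨MulEquiv.ofBijective ζ hbij, fun _ => rfl⟩
  have hker : (ε.symm.toMonoidHom.comp (QuotientGroup.mk' (L.subgroupOf H))).ker =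
      L.subgroupOf H := by
    ext x
    rw [MonoidHom.mem_ker]
    constructor
    · intro h
      have h2 : ε.symm (QuotientGroup.mk' (L.subgroupOf H) x) = 1 := h
      rw [MulEquiv.map_eq_one_iff] at h2
      exact (QuotientGroup.eq_one_iff x).mp h2
    · intro h
      show ε.symm (QuotientGroup.mk' (L.subgroupOf H) x) = 1
      rw [MulEquiv.map_eq_one_iff]
      exact (QuotientGroup.eq_one_iff x).mpr h
  have hfg : (L.subgroupOf H).FG := by
    rw [← Group.fg_iff_subgroup_fg]
    have : Group.FG L := Group.fg_iff_subgroup_fg L |>.mpr hL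
    exact Group.fg_of_surjective (f := (Subgroup.subgroupOfEquivOfLe hLH).symm.toMonoidHom)
      (MulEquiv.surjective _)
  have h1 := free_small (ε.symm.toMonoidHom.comp (QuotientGroup.mk' (L.subgroupOf H))) ⟨t, htH⟩
    (by
      intro h
      have h2 : (⟨t, htH⟩ : H) ∈ L.subgroupOf H := by rw [← hker]; exact h
      have h3 : t ∈ L := h2
      exact one_ne_zero (htz 1 (by rw [zpow_one]; exact hLc h3))) (by rw [hker]; exact hfg)
  rw [hker] at h1
  rw [eq_bot_iff]
  intro x hx
  have h2 : (⟨x, hLH hx⟩ : H) ∈ L.subgroupOf H := hx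
  rw [h1] at h2
  exact congrArg Subtype.val h2

end Pool.Agent.R684.PS
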