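import Pool.Agent.R684.PS.FatFree

/-!
# Surface groups
-/

set_option autoImplicit false

namespace Pool.Agent.R684.PS

/-- the product of the commutators `[a_i, b_i]` -/
def srel {H : Type} [Group H] (g : ℕ) (a b : Fin g → H) : H :=
  (List.ofFn fun i => a i * b i * (a i)⁻¹ * (b i)⁻¹).prod

/-- the fundamental group of the closed orientable surface of genus `g` -/
abbrev Surf (g : ℕ) := PresentedGroup
  ({srel g (fun i => FreeGroup.of (i, false)) (fun i => FreeGroup.of (i, true))} :
    Set (FreeGroup (Fin g × Bool)))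

theorem map_srel {H H' : Type} [Group H] [Group H'] (f : H →* H') (g : ℕ) (a b : Fin g → H) :
    f (srel g a b) = srel g (fun i => f (a i)) (fun i => f (b i)) := by
  rw [srel, srel, map_list_prod, List.map_ofFn]
  congr 2
  funext i
  simp

/-- homomorphisms from surface groups -/
theorem surf_lift {H : Type} [Group H] (g : ℕ) (a b : Fin g → H) (h : srel g a b = 1) :
    ∃ F : Surf g →* H, ∀ i, F (PresentedGroup.of (i, false)) = a i ∧
      F (PresentedGroup.of (i, true)) = b i := by
  have h1 : ∀ r ∈ ({srel g (fun i => FreeGroup.of (i, false)) (fun i => FreeGroup.of (i, true))} :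
      Set (FreeGroup (Fin g × Bool))),
      FreeGroup.lift (fun p : Fin g × Bool => if p.2 then b p.1 else a p.1) r = 1 := by
    rintro _ rfl
    rw [map_srel]
    simpa using h
  exact ⟨PresentedGroup.toGroup h1, fun i => ⟨by rw [PresentedGroup.toGroup.of]; simp,
    by rw [PresentedGroup.toGroup.of]; simp⟩⟩

theorem surf_rel (g : ℕ) : srel g (fun i => (PresentedGroup.of (i, false) : Surf g))
    (fun i => PresentedGroup.of (i, true)) = 1 := by
  have h1 := PresentedGroup.one_of_mem (rels := ({srel g (fun i => FreeGroup.of (i, false))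
    (fun i => FreeGroup.of (i, true))} : Set (FreeGroup (Fin g × Bool)))) rfl
  rw [map_srel] at h1
  exact h1

/-- the generators -/
def sa {g : ℕ} (i : Fin g) : Surf g := PresentedGroup.of (i, false)
/-- the generators -/
def sb {g : ℕ} (i : Fin g) : Surf g := PresentedGroup.of (i, true)

theorem surf_ind {g : ℕ} {p : Surf g → Prop} (ha : ∀ i, p (sa i)) (hb : ∀ i, p (sb i))
    (h1 : p 1) (hm : ∀ x y, p x → p y → p (x * y)) (hi : ∀ x, p x → p x⁻¹) (x : Surf g) : p x := by
  have hx : x ∈ Subgroup.closure (Set.range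
      (PresentedGroup.of : Fin g × Bool → Surf g)) := by
    rw [PresentedGroup.closure_range_of]; trivial
  induction hx using Subgroup.closure_induction with
  | mem x hx =>
    obtain ⟨⟨i, c⟩, rfl⟩ := hx
    cases c
    · exact ha i
    · exact hb i
  | one => exact h1
  | mul x y _ _ hx hy => exact hm x y hx hy
  | inv x _ hx => exact hi x hx

theorem srel_comm {A : Type} [CommGroup A] (g : ℕ) (a b : Fin g → A) : srel g a b = 1 := by
  rw [srel, List.prod_ofFn]
  refine Finset.prod_eq_one fun i _ => ?_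
  rw [mul_comm (a i) (b i)]
  group

theorem surf_ab (g : ℕ) : ∃ f : Surf g →* Multiplicative (Fin g × Bool →₀ ℤ), ∀ i,
    f (PresentedGroup.of i) = Multiplicative.ofAdd (Finsupp.single i 1) := by
  obtain ⟨f, hf⟩ := surf_lift g (fun i => Multiplicative.ofAdd (Finsupp.single (i, false) 1))
    (fun i => Multiplicative.ofAdd (Finsupp.single (i, true) (1 : ℤ))) (srel_comm g _ _)
  refine ⟨f, ?_⟩
  rintro ⟨i, c⟩
  cases c
  · exact (hf i).1
  · exact (hf i).2

theorem surf_fg (g : ℕ) : Group.FG (Surf g) := by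
  rw [Group.fg_def, Subgroup.fg_iff]
  exact ⟨_, PresentedGroup.closure_range_of _, Set.finite_range _⟩

theorem aff_brk {R : Type} [CommRing R] (c c' w d d' u : R) (h : c * c' = 1) (h' : d * d' = 1) :
    aff c c' w h * aff d d' u h' * (aff c c' w h)⁻¹ * (aff d d' u h')⁻¹ =
      Equiv.addLeft ((c - 1) * u - (d - 1) * w) := by
  rw [mul_inv_eq_iff_eq_mul, mul_inv_eq_iff_eq_mul]
  ext v
  show w + c * (u + d * v) = (c - 1) * u - (d - 1) * w + (u + d * (w + c * v))
  ring

/-- translations -/
def trh (R : Type) [CommRing R] : Multiplicative R →* Equiv.Perm R where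
  toFun t := Equiv.addLeft (Multiplicative.toAdd t)
  map_one' := by
    ext v
    show (0 : R) + v = v
    rw [zero_add]
  map_mul' s t := by
    ext v
    show (Multiplicative.toAdd s + Multiplicative.toAdd t) + v =
      Multiplicative.toAdd s + (Multiplicative.toAdd t + v)
    rw [add_assoc]

/-- derivations of surface groups -/
theorem surf_der {R : Type} [CommRing R] (n : ℕ) (c : Surf (n + 2) →* R) :
    ∃ D : Surf (n + 2) → R, (∀ x y, D (x * y) = D x + c x * D y) ∧
      D (sa 0) = c (sb 1) - 1 ∧ D (sb 0) = 0 := by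
  classical
  have hc : ∀ x : Surf (n + 2), c x * c x⁻¹ = 1 := by
    intro x
    rw [← map_mul, mul_inv_cancel, map_one]
  obtain ⟨w, hw⟩ : ∃ w : Fin (n + 2) → R, w = Pi.single 0 (c (sb 1) - 1) -
      Pi.single 1 (c (sb 0) - 1) := ⟨_, rfl⟩
  have hw0 : w 0 = c (sb 1) - 1 := by
    rw [hw, Pi.sub_apply, Pi.single_eq_same, Pi.single_eq_of_ne Fin.zero_ne_one, sub_zero]
  have hw1 : w 1 = -(c (sb 0) - 1) := by
    rw [hw, Pi.sub_apply, Pi.single_eq_same, Pi.single_eq_of_ne Fin.zero_ne_one.symm, zero_sub]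
  have hwi : ∀ i : Fin (n + 2), i ≠ 0 → i ≠ 1 → w i = 0 := by
    intro i h0 h1
    rw [hw, Pi.sub_apply, Pi.single_eq_of_ne h0, Pi.single_eq_of_ne h1, sub_zero]
  obtain ⟨F, hF⟩ := surf_lift (n + 2) (fun i => aff (c (sa i)) (c (sa i)⁻¹) (w i) (hc _))
    (fun i => aff (c (sb i)) (c (sb i)⁻¹) 0 (hc _)) (by
      rw [srel]
      have h1 : (fun i : Fin (n + 2) => aff (c (sa i)) (c (sa i)⁻¹) (w i) (hc _) *
          aff (c (sb i)) (c (sb i)⁻¹) 0 (hc _) * (aff (c (sa i)) (c (sa i)⁻¹) (w i) (hc _))⁻¹ *
          (aff (c (sb i)) (c (sb i)⁻¹) 0 (hc _))⁻¹) =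
          fun i => trh R (Multiplicative.ofAdd (-((c (sb i) - 1) * w i))) := by
        funext i
        rw [aff_brk]
        show _ = Equiv.addLeft (-((c (sb i) - 1) * w i))
        congr 1
        ring
      rw [h1]
      have h2 : (List.ofFn fun i : Fin (n + 2) =>
          trh R (Multiplicative.ofAdd (-((c (sb i) - 1) * w i)))) =
          (List.ofFn fun i : Fin (n + 2) => Multiplicative.ofAdd (-((c (sb i) - 1) * w i))).map
            (trh R) := by
        rw [List.map_ofFn]
        rfl
      rw [h2, ← map_list_prod, List.prod_ofFn, ← ofAdd_sum]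
      have h3 : ∑ i : Fin (n + 2), -((c (sb i) - 1) * w i) = 0 := by
        rw [Fin.sum_univ_succ, Fin.sum_univ_succ]
        have h4 : ∑ i : Fin n, -((c (sb i.succ.succ) - 1) * w i.succ.succ) = 0 := by
          refine Finset.sum_eq_zero fun i _ => ?_
          rw [hwi i.succ.succ (Fin.succ_ne_zero _) (by
            intro h
            have := congrArg Fin.val h
            simp at this), mul_zero, neg_zero]
        rw [h4, hw0]
        have h5 : w (Fin.succ 0) = -(c (sb 0) - 1) := hw1
        rw [h5]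
        show -((c (sb 0) - 1) * (c (sb 1) - 1)) + (-((c (sb 1) - 1) * -(c (sb 0) - 1)) + 0) = 0
        ring
      rw [h3, ofAdd_zero, map_one])
  have hFa : ∀ i, F (sa i) = aff (c (sa i)) (c (sa i)⁻¹) (w i) (hc _) := fun i => (hF i).1
  have hFb : ∀ i, F (sb i) = aff (c (sb i)) (c (sb i)⁻¹) 0 (hc _) := fun i => (hF i).2
  have key : ∀ (x : Surf (n + 2)) (v : R), F x v = F x 0 + c x * v := by
    intro x
    induction x using surf_ind with
    | ha i =>
      intro v
      rw [hFa]
      show w i + c (sa i) * v = w i + c (sa i) * 0 + c (sa i) * v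
      ring
    | hb i =>
      intro v
      rw [hFb]
      show 0 + c (sb i) * v = 0 + c (sb i) * 0 + c (sb i) * v
      ring
    | h1 => intro v; simp
    | hm x y hx hy =>
      intro v
      rw [map_mul, map_mul, Equiv.Perm.mul_apply, Equiv.Perm.mul_apply, hx (F y v), hx (F y 0),
        hy v]
      ring
    | hi x hx =>
      intro v
      have h1 := hx (F x⁻¹ v)
      have h2 := hx (F x⁻¹ 0)
      rw [← Equiv.Perm.mul_apply, ← map_mul, mul_inv_cancel, map_one, Equiv.Perm.one_apply] at h1 h2
      have h3 := hc x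
      linear_combination c x⁻¹ * (h2 - h1) - (F x⁻¹ v - F x⁻¹ 0) * h3
  refine ⟨fun x => F x 0, fun x y => ?_, ?_, ?_⟩
  · show F (x * y) 0 = _
    rw [map_mul, Equiv.Perm.mul_apply, key x (F y 0)]
  · show F (sa 0) 0 = _
    rw [hFa]
    show w 0 + c (sa 0) * 0 = _
    rw [hw0]
    ring
  · show F (sb 0) 0 = _
    rw [hFb]
    show 0 + c (sb 0) * 0 = _
    ring

end Pool.Agent.R684.PS
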