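import Pool.Agent.R684.PS.Good2

/-!
# Towers of extensions
-/

set_option autoImplicit false

namespace Pool.Agent.R684.PS

open Pool.Agent.Y110.FJ
open Pool.Agent.Y462.SS (Closed)
open Pool.Agent.R684.FP

/-- extensions of finitely generated groups -/
theorem fg_ext {G B : Type} [Group G] [Group B] (π : G →* B) (hπ : Function.Surjective π)
    (hk : π.ker.FG) (hB : Group.FG B) : Group.FG G := by
  classical
  obtain ⟨S, hS⟩ := hk
  obtain ⟨T, hT⟩ := Group.fg_def.mp hB
  choose s hs using hπ
  rw [Group.fg_def]
  refine ⟨S ∪ T.image s, ?_⟩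
  rw [eq_top_iff]
  have hker : π.ker ≤ Subgroup.closure ((S ∪ T.image s : Finset G) : Set G) := by
    rw [← hS]
    exact Subgroup.closure_mono (by rw [Finset.coe_union]; exact Set.subset_union_left)
  have key : ∀ b : B, ∃ g ∈ Subgroup.closure ((S ∪ T.image s : Finset G) : Set G), π g = b := by
    intro b
    have hb : b ∈ Subgroup.closure (T : Set B) := by rw [hT]; trivial
    induction hb using Subgroup.closure_induction with
    | mem x hx =>
      refine ⟨s x, Subgroup.subset_closure ?_, hs x⟩
      rw [Finset.coe_union]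
      exact Or.inr (Finset.mem_coe.mpr (Finset.mem_image_of_mem s hx))
    | one => exact ⟨1, one_mem _, map_one π⟩
    | mul x y _ _ hx hy =>
      obtain ⟨g, hg, rfl⟩ := hx
      obtain ⟨g', hg', rfl⟩ := hy
      exact ⟨g * g', mul_mem hg hg', map_mul π g g'⟩
    | inv x _ hx =>
      obtain ⟨g, hg, rfl⟩ := hx
      exact ⟨g⁻¹, inv_mem hg, map_inv π g⟩
  rintro x -
  obtain ⟨g, hg, hgx⟩ := key (π x)
  have h1 : x * g⁻¹ ∈ π.ker := by
    rw [MonoidHom.mem_ker, map_mul, map_inv, hgx, mul_inv_cancel]
  have h2 : x = x * g⁻¹ * g := by group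
  rw [h2]
  exact mul_mem (hker h1) hg

/-- the quotients allowed in the towers -/
structure Fac (C : ∀ (G : Type) [Group G], Prop) (B : Type) [Group B] : Prop where
  fg : Group.FG B
  good : Good C B
  fat : Fat B

/-- The class of groups `T(C)`: it contains the finitely generated groups which are good, the
finitely generated groups with a subgroup of finite index in the class, and `G` if it has a normal
subgroup `K` in the class such that `K` is characteristic and `G ⧸ K` is in the class, or such
that `Fac C (G ⧸ K)`. -/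
inductive Tow (C : ∀ (G : Type) [Group G], Prop) : ∀ (G : Type) [Group G], Prop
  | base (G : Type) [Group G] : Group.FG G → Good C G → Tow C G
  | fin (G : Type) [Group G] (K : Subgroup G) : Group.FG G → K.FiniteIndex → Tow C K → Tow C G
  | char (G : Type) [Group G] (K : Subgroup G) [K.Normal] : K.Characteristic → Tow C K →
      Tow C (G ⧸ K) → Tow C G
  | step (G : Type) [Group G] (K : Subgroup G) [K.Normal] : Tow C K → Fac C (G ⧸ K) → Tow C G

theorem tow_good {C : ∀ (G : Type) [Group G], Prop} (hC : ClosedE C) {G : Type} [hG : Group G]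
    (h : Tow C G) : Group.FG G ∧ Good C G := by
  induction h with
  | base G h1 h2 => exact ⟨h1, h2⟩
  | fin G K h1 h2 _ ih => exact ⟨h1, good_fin hC h1 K h2 ih.2⟩
  | char G K h1 _ _ ih1 ih2 =>
    refine ⟨fg_ext (QuotientGroup.mk' K) (QuotientGroup.mk'_surjective K) ?_ ih2.1,
      good_char hC K h1 ih1.2 ih2.2⟩
    rw [QuotientGroup.ker_mk']
    exact (Group.fg_iff_subgroup_fg K).mp ih1.1
  | step G K _ h ih =>
    obtain ⟨h1, h2, h3⟩ := h
    have hk : (QuotientGroup.mk' K).ker.FG := by
      rw [QuotientGroup.ker_mk']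
      exact (Group.fg_iff_subgroup_fg K).mp ih.1
    have hfg := fg_ext (QuotientGroup.mk' K) (QuotientGroup.mk'_surjective K) hk h1
    refine ⟨hfg, good_step hC hfg (QuotientGroup.mk' K) (QuotientGroup.mk'_surjective K) h3 hk h2 ?_⟩
    exact good_equiv (MulEquiv.subgroupCongr (QuotientGroup.ker_mk' K).symm) ih.2

end Pool.Agent.R684.PS
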